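import Pool.Agent.PU72.Defs
import Mathlib.RingTheory.PowerSeries.Basic

/-!
PU72: calculus of the sequences gs, gs2, cv.
-/

set_option autoImplicit false

namespace HexObs

namespace PU

open Finset BAR TS

open scoped ENNReal

/-! ### general laws -/

/-- weight of the elements of P of length n -/
noncomputable def law {α : Type*} (P : Set α) (l : α → ℕ) (v : α → ℝ≥0∞) (n : ℕ) : ℝ≥0∞ :=
  ∑' a : {a | a ∈ P ∧ l a = n}, v a.1

open Classical in
lemma law_ind {α : Type*} (P : Set α) (l : α → ℕ) (v : α → ℝ≥0∞) (n : ℕ) :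
    law P l v n = ∑' a : α, if a ∈ P ∧ l a = n then v a else 0 := by
  unfold law
  rw [tsum_subtype {a | a ∈ P ∧ l a = n} v]
  exact tsum_congr fun a => by simp only [Set.indicator_apply, Set.mem_ofPred_eq]

/-- covering: the elements of X are images of elements of Y -/
lemma cover {α β : Type*} {X : Set α} {Y : Set β} (f : β → α) (w : α → ℝ≥0∞)
    (h : ∀ x ∈ X, ∃ y ∈ Y, f y = x) : ∑' x : X, w x.1 ≤ ∑' y : Y, w (f y.1) := by
  let Z : Set β := {y | y ∈ Y ∧ f y ∈ X}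
  let φ : Z → X := fun y => ⟨f y.1, y.2.2⟩
  have hφ : Function.Surjective φ := by
    rintro ⟨x, hx⟩
    obtain ⟨y, hy, rfl⟩ := h x hx
    exact ⟨⟨y, hy, hx⟩, rfl⟩
  refine (ENNReal.tsum_le_tsum_comp_of_surjective hφ fun x : X => w x.1).trans ?_
  exact ENNReal.tsum_mono_subtype (fun y : β => w (f y)) (fun y hy => hy.1)

/-- covering with lengths -/
lemma law_cover {α β : Type*} {X : Set α} {Y : Set β} {lX : α → ℕ} {lY : β → ℕ} {v : α → ℝ≥0∞}
    {w : β → ℝ≥0∞} (f : β → α) (h : ∀ x ∈ X, ∃ y ∈ Y, f y = x ∧ lY y = lX x) (hw : ∀ y ∈ Y, v (f y) ≤ w y)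
    (n : ℕ) : law X lX v n ≤ law Y lY w n := by
  unfold law
  refine (cover (X := {a | a ∈ X ∧ lX a = n}) (Y := {a | a ∈ Y ∧ lY a = n}) f v ?_).trans ?_
  · rintro x ⟨hx, hn⟩
    obtain ⟨y, hy, e1, e2⟩ := h x hx
    exact ⟨y, ⟨hy, e2.trans hn⟩, e1⟩
  · exact ENNReal.tsum_le_tsum fun y => hw y.1 y.2.1

lemma law_mono {α : Type*} {P Q : Set α} (h : P ⊆ Q) (l : α → ℕ) (v : α → ℝ≥0∞) (n : ℕ) :
    law P l v n ≤ law Q l v n :=
  ENNReal.tsum_mono_subtype v fun _ ha => ⟨h ha.1, ha.2⟩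

open Classical in
lemma law_biUnion {α ι : Type*} (I : Finset ι) (P : Set α) (Q : ι → Set α) (h : ∀ a ∈ P, ∃ i ∈ I, a ∈ Q i)
    (l : α → ℕ) (v : α → ℝ≥0∞) (n : ℕ) : law P l v n ≤ ∑ i ∈ I, law (Q i) l v n := by
  simp only [law_ind]
  rw [← Summable.tsum_finsetSum fun i _ => ENNReal.summable]
  refine ENNReal.tsum_le_tsum fun a => ?_
  split_ifs with ha
  · obtain ⟨i, hi, hq⟩ := h a ha.1
    refine le_trans (le_of_eq ?_) (Finset.single_le_sum
      (f := fun i => if a ∈ Q i ∧ l a = n then v a else 0) (fun _ _ => zero_le) hi)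
    rw [if_pos ⟨hq, ha.2⟩]
  · exact zero_le

open Classical in
lemma tsum_law {α : Type*} (P : Set α) (l : α → ℕ) (v : α → ℝ≥0∞) : ∑' n, law P l v n = ∑' a : P, v a.1 := by
  simp only [law_ind]
  rw [ENNReal.tsum_comm, tsum_subtype P v]
  refine tsum_congr fun a => ?_
  rw [tsum_eq_single (l a)]
  · simp only [and_true, Set.indicator_apply]
  · intro n hn
    rw [if_neg]
    rintro ⟨_, h⟩
    exact hn h.symm

open Classical in
lemma law_prod {α β : Type*} (P : Set α) (Q : Set β) (lP : α → ℕ) (lQ : β → ℕ) (v : α → ℝ≥0∞)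
    (w : β → ℝ≥0∞) (n : ℕ) :
    law (P ×ˢ Q) (fun x => lP x.1 + lQ x.2) (fun x => v x.1 * w x.2) n = cv (law P lP v) (law Q lQ w) n := by
  unfold cv
  simp only [law_ind]
  rw [ENNReal.tsum_prod']
  have e : ∀ p ∈ antidiagonal n, (∑' a : α, if a ∈ P ∧ lP a = p.1 then v a else 0) *
      (∑' b : β, if b ∈ Q ∧ lQ b = p.2 then w b else 0) =
      ∑' a : α, ∑' b : β, (if a ∈ P ∧ lP a = p.1 then v a else 0) * (if b ∈ Q ∧ lQ b = p.2 then w b else 0) := by
    intro p _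
    rw [← ENNReal.tsum_mul_right]
    exact tsum_congr fun a => (ENNReal.tsum_mul_left).symm
  rw [Finset.sum_congr rfl e, ← Summable.tsum_finsetSum fun i _ => ENNReal.summable]
  refine tsum_congr fun a => ?_
  rw [← Summable.tsum_finsetSum fun i _ => ENNReal.summable]
  refine tsum_congr fun b => ?_
  simp only [Set.mem_prod]
  split_ifs with h
  · rw [Finset.sum_eq_single (lP a, lQ b)]
    · rw [if_pos (c := a ∈ P ∧ lP a = (lP a, lQ b).1) ⟨h.1.1, rfl⟩,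
        if_pos (c := b ∈ Q ∧ lQ b = (lP a, lQ b).2) ⟨h.1.2, rfl⟩]
    · rintro ⟨i, j⟩ _ hp
      simp only
      by_cases h1 : lP a = i
      · by_cases h2 : lQ b = j
        · exact absurd (by rw [h1, h2]) hp
        · rw [if_neg (c := b ∈ Q ∧ lQ b = j) (fun h' => h2 h'.2), mul_zero]
      · rw [if_neg (c := a ∈ P ∧ lP a = i) (fun h' => h1 h'.2), zero_mul]
    · intro hp
      exact absurd (HasAntidiagonal.mem_antidiagonal.2 h.2) hp
  · symm
    refine Finset.sum_eq_zero ?_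
    rintro ⟨i, j⟩ hp
    rw [HasAntidiagonal.mem_antidiagonal] at hp
    simp only at hp ⊢
    by_cases h1 : a ∈ P ∧ lP a = i
    · by_cases h2 : b ∈ Q ∧ lQ b = j
      · exact absurd ⟨⟨h1.1, h2.1⟩, by rw [h1.2, h2.2, hp]⟩ h
      · rw [if_neg h2, mul_zero]
    · rw [if_neg h1, zero_mul]

/-! ### convolution -/

lemma cv_coeff (f g : ℕ → ℝ≥0∞) (n : ℕ) :
    cv f g n = PowerSeries.coeff n (PowerSeries.mk f * PowerSeries.mk g) := by
  rw [PowerSeries.coeff_mul]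
  simp only [PowerSeries.coeff_mk]
  rfl

lemma mk_cv (f g : ℕ → ℝ≥0∞) : PowerSeries.mk (cv f g) = PowerSeries.mk f * PowerSeries.mk g := by
  ext n
  rw [PowerSeries.coeff_mk, cv_coeff]

lemma cv_comm (f g : ℕ → ℝ≥0∞) : cv f g = cv g f := by
  funext n
  rw [cv_coeff, cv_coeff, mul_comm]

lemma cv_assoc (f g h : ℕ → ℝ≥0∞) : cv (cv f g) h = cv f (cv g h) := by
  funext n
  rw [cv_coeff, cv_coeff, mk_cv, mk_cv, mul_assoc]

lemma cv_left_comm (f g h : ℕ → ℝ≥0∞) : cv f (cv g h) = cv g (cv f h) := by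
  rw [← cv_assoc, cv_comm f g, cv_assoc]

lemma cv_mono {f f' g g' : ℕ → ℝ≥0∞} (h : ∀ n, f n ≤ f' n) (h' : ∀ n, g n ≤ g' n) (n : ℕ) :
    cv f g n ≤ cv f' g' n :=
  Finset.sum_le_sum fun p _ => mul_le_mul' (h p.1) (h' p.2)

lemma cv_add_left (f f' g : ℕ → ℝ≥0∞) (n : ℕ) : cv (fun k => f k + f' k) g n = cv f g n + cv f' g n := by
  unfold cv
  rw [← Finset.sum_add_distrib]
  exact Finset.sum_congr rfl fun p _ => by ring

lemma cv_smul_left (c : ℝ≥0∞) (f g : ℕ → ℝ≥0∞) (n : ℕ) : cv (fun k => c * f k) g n = c * cv f g n := by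
  unfold cv
  rw [Finset.mul_sum]
  exact Finset.sum_congr rfl fun p _ => by ring

lemma cv_smul_right (c : ℝ≥0∞) (f g : ℕ → ℝ≥0∞) (n : ℕ) : cv f (fun k => c * g k) n = c * cv f g n := by
  rw [cv_comm, cv_smul_left, cv_comm]

lemma cv_sum_left {ι : Type*} (I : Finset ι) (f : ι → ℕ → ℝ≥0∞) (g : ℕ → ℝ≥0∞) (n : ℕ) :
    cv (fun k => ∑ i ∈ I, f i k) g n = ∑ i ∈ I, cv (f i) g n := by
  unfold cv
  rw [Finset.sum_comm]
  exact Finset.sum_congr rfl fun p _ => by rw [Finset.sum_mul]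

lemma tsum_cv (f g : ℕ → ℝ≥0∞) : ∑' n, cv f g n = (∑' n, f n) * ∑' n, g n := by
  have h1 : ∀ n, cv f g n = ∑' p : antidiagonal n, f p.1.1 * g p.1.2 := by
    intro n
    unfold cv
    rw [tsum_fintype, Finset.sum_coe_sort (antidiagonal n) fun p => f p.1 * g p.2]
  simp only [h1]
  rw [← ENNReal.tsum_sigma fun (n : ℕ) (p : antidiagonal n) => f p.1.1 * g p.1.2]
  have h2 := Equiv.tsum_eq (HasAntidiagonal.sigmaAntidiagonalEquivProd (A := ℕ)).symm
    (fun x : (Σ n : ℕ, antidiagonal n) => f x.2.1.1 * g x.2.1.2)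
  rw [← h2]
  have h3 : ∀ c : ℕ × ℕ, f ((HasAntidiagonal.sigmaAntidiagonalEquivProd (A := ℕ)).symm c).2.1.1 *
      g ((HasAntidiagonal.sigmaAntidiagonalEquivProd (A := ℕ)).symm c).2.1.2 = f c.1 * g c.2 := fun c => rfl
  simp only [h3]
  rw [ENNReal.tsum_prod', ← ENNReal.tsum_mul_right]
  exact tsum_congr fun a => ENNReal.tsum_mul_left (a := f a) (f := g)

/-- a coefficient of a product -/
lemma cv_le_sup {f g : ℕ → ℝ≥0∞} {n : ℕ} {S : ℝ≥0∞} (h : ∀ k, k ≤ n → g k ≤ S) :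
    cv f g n ≤ (∑' k, f k) * S := by
  unfold cv
  calc ∑ p ∈ antidiagonal n, f p.1 * g p.2 ≤ ∑ p ∈ antidiagonal n, f p.1 * S :=
        Finset.sum_le_sum fun p hp => mul_le_mul' le_rfl (h _ (by
          rw [HasAntidiagonal.mem_antidiagonal] at hp
          omega))
    _ = (∑ p ∈ antidiagonal n, f p.1) * S := by rw [Finset.sum_mul]
    _ = (∑ k ∈ range (n + 1), f k) * S := by
        rw [Finset.Nat.sum_antidiagonal_eq_sum_range_succ (fun i _ => f i) n]
    _ ≤ _ := mul_le_mul' (ENNReal.sum_le_tsum _) le_rfl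

/-! ### words and pairs -/

lemma gs_law (A : Set (List Bool)) : gs A = law A List.length wE := rfl

lemma gs2_law (A B : Set (List Bool)) (R : List Bool → List Bool → Prop) :
    gs2 A B R = law {p : List Bool × List Bool | p.1 ∈ A ∧ p.2 ∈ B ∧ R p.1 p.2}
      (fun p => p.1.length + p.2.length) (fun p => wE p.1 * wE p.2) := by
  funext n
  unfold gs2 g2 law
  have e : {p : List Bool × List Bool | p.1 ∈ A ∧ p.2 ∈ B ∧ R p.1 p.2 ∧ p.1.length + p.2.length = n} =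
      {p | p ∈ {p : List Bool × List Bool | p.1 ∈ A ∧ p.2 ∈ B ∧ R p.1 p.2} ∧ p.1.length + p.2.length = n} := by
    ext p
    simp only [Set.mem_ofPred_eq]
    tauto
  rw [e]

lemma gs_mono {A B : Set (List Bool)} (h : A ⊆ B) (n : ℕ) : gs A n ≤ gs B n := by
  rw [gs_law, gs_law]
  exact law_mono h _ _ n

lemma tsum_gs (A : Set (List Bool)) : ∑' n, gs A n = gf A := by
  rw [gs_law, tsum_law]
  rfl

lemma tsum_gs2 (A B : Set (List Bool)) (R : List Bool → List Bool → Prop) : ∑' n, gs2 A B R n = g2 A B R := by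
  rw [gs2_law, tsum_law]
  rfl

lemma gs_biUnion {ι : Type*} (I : Finset ι) (A : Set (List Bool)) (Q : ι → Set (List Bool))
    (h : ∀ t ∈ A, ∃ i ∈ I, t ∈ Q i) (n : ℕ) : gs A n ≤ ∑ i ∈ I, gs (Q i) n := by
  simp only [gs_law]
  exact law_biUnion I A Q h _ _ n

lemma gs_union_le (A B : Set (List Bool)) (n : ℕ) : gs (A ∪ B) n ≤ gs A n + gs B n := by
  have h := gs_biUnion (Finset.univ : Finset Bool) (A ∪ B) (fun b => if b then A else B) (by
    rintro t (h | h)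
    · exact ⟨true, Finset.mem_univ _, by simpa using h⟩
    · exact ⟨false, Finset.mem_univ _, by simpa using h⟩) n
  simpa using h

/-- every pair with the relation R has one of the relations Q i -/
lemma gs2_le_sum {ι : Type*} (I : Finset ι) {A B : Set (List Bool)} {R : List Bool → List Bool → Prop}
    (Q : ι → List Bool → List Bool → Prop) (h : ∀ s ∈ A, ∀ t ∈ B, R s t → ∃ i ∈ I, Q i s t) (n : ℕ) :
    gs2 A B R n ≤ ∑ i ∈ I, gs2 A B (Q i) n := by
  simp only [gs2_law]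
  refine law_biUnion I _ (fun i => {p : List Bool × List Bool | p.1 ∈ A ∧ p.2 ∈ B ∧ Q i p.1 p.2}) ?_ _ _ n
  rintro p ⟨h1, h2, h3⟩
  obtain ⟨i, hi, hq⟩ := h _ h1 _ h2 h3
  exact ⟨i, hi, h1, h2, hq⟩

lemma gs2_mono {A A' B B' : Set (List Bool)} {R R' : List Bool → List Bool → Prop}
    (h : ∀ s ∈ A, ∀ t ∈ B, R s t → s ∈ A' ∧ t ∈ B' ∧ R' s t) (n : ℕ) : gs2 A B R n ≤ gs2 A' B' R' n := by
  simp only [gs2_law]
  exact law_mono (fun p hp => h _ hp.1 _ hp.2.1 hp.2.2) _ _ n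

/-- words that split -/
lemma gs_le_cv {A B C : Set (List Bool)} (h : ∀ t ∈ A, ∃ a ∈ B, ∃ b ∈ C, t = a ++ b) (n : ℕ) :
    gs A n ≤ cv (gs B) (gs C) n := by
  simp only [gs_law]
  rw [← law_prod]
  refine law_cover (fun x => x.1 ++ x.2) ?_ ?_ n
  · intro t ht
    obtain ⟨a, ha, b, hb, rfl⟩ := h t ht
    exact ⟨(a, b), ⟨ha, hb⟩, rfl, by simp⟩
  · rintro ⟨a, b⟩ _
    exact le_of_eq (wE_append a b)

/-- the right word of the pair splits -/
lemma gs2_right_split {A B C E : Set (List Bool)} {R R' : List Bool → List Bool → Prop}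
    (h : ∀ s ∈ A, ∀ t ∈ B, R s t → ∃ c ∈ C, ∃ e ∈ E, R' s c ∧ t = c ++ e) (n : ℕ) :
    gs2 A B R n ≤ cv (gs2 A C R') (gs E) n := by
  rw [gs2_law, gs2_law, gs_law, ← law_prod]
  refine law_cover (fun x => (x.1.1, x.1.2 ++ x.2)) ?_ ?_ n
  · rintro ⟨s, t⟩ ⟨hs, ht, hR⟩
    obtain ⟨c, hc, e, he, hR', h1⟩ := h s hs t ht hR
    refine ⟨((s, c), e), ⟨⟨hs, hc, hR'⟩, he⟩, ?_, ?_⟩
    · simp only
      rw [← h1]
    · simp only
      rw [h1, List.length_append]
      ring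
  · rintro ⟨⟨s, c⟩, e⟩ _
    simp only
    rw [wE_append, mul_assoc]

/-- the left word of the pair splits -/
lemma gs2_left_split {A B C E : Set (List Bool)} {R R' : List Bool → List Bool → Prop}
    (h : ∀ s ∈ A, ∀ t ∈ B, R s t → ∃ c ∈ C, ∃ e ∈ E, R' c t ∧ s = c ++ e) (n : ℕ) :
    gs2 A B R n ≤ cv (gs2 C B R') (gs E) n := by
  rw [gs2_law, gs2_law, gs_law, ← law_prod]
  refine law_cover (fun x => (x.1.1 ++ x.2, x.1.2)) ?_ ?_ n
  · rintro ⟨s, t⟩ ⟨hs, ht, hR⟩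
    obtain ⟨c, hc, e, he, hR', h1⟩ := h s hs t ht hR
    refine ⟨((c, t), e), ⟨⟨hc, ht, hR'⟩, he⟩, ?_, ?_⟩
    · simp only
      rw [← h1]
    · simp only
      rw [h1, List.length_append]
      ring
  · rintro ⟨⟨c, t⟩, e⟩ _
    simp only
    rw [wE_append]
    exact le_of_eq (by ring)

/-- the mirror image -/
lemma gs2_mirror {A B A' B' : Set (List Bool)} (hA : ∀ s ∈ A, s.map not ∈ A') (hB : ∀ t ∈ B, t.map not ∈ B')
    (n : ℕ) : gs2 A B Dj n ≤ gs2 B' A' Dj n := by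
  rw [gs2_law, gs2_law]
  have hnn : ∀ s : List Bool, (s.map not).map not = s := by
    intro s
    rw [List.map_map]
    have : (not ∘ not : Bool → Bool) = id := by
      funext b
      simp
    rw [this, List.map_id]
  refine law_cover (fun x => (x.2.map not, x.1.map not)) ?_ ?_ n
  · rintro ⟨s, t⟩ ⟨hs, ht, hD⟩
    refine ⟨(t.map not, s.map not), ⟨hB t ht, hA s hs, Dj_not hD⟩, ?_, ?_⟩
    · simp only [hnn]
    · simp only [List.length_map]
      ring
  · rintro ⟨s, t⟩ _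
    simp only
    rw [wE_not, wE_not, mul_comm]

/-- pairs of bridges: the mirror image -/
lemma gs2_Brd_mirror (a b n : ℕ) : gs2 (Brd a) (Brd b) Dj n = gs2 (Brd b) (Brd a) Dj n :=
  le_antisymm (gs2_mirror (fun _ h => Brd_not h) (fun _ h => Brd_not h) n)
    (gs2_mirror (fun _ h => Brd_not h) (fun _ h => Brd_not h) n)

open Classical in
/-- disjoint left sets -/
lemma sum_gs2_left (I : Finset ℕ) {A : ℕ → Set (List Bool)} {B : Set (List Bool)}
    {R : List Bool → List Bool → Prop} (hA : ∀ i ∈ I, ∀ j ∈ I, ∀ s, s ∈ A i → s ∈ A j → i = j) (n : ℕ) :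
    ∑ i ∈ I, gs2 (A i) B R n ≤ gs2 {s | ∃ i ∈ I, s ∈ A i} B R n := by
  simp only [gs2_law, law_ind]
  rw [← Summable.tsum_finsetSum fun i _ => ENNReal.summable]
  refine ENNReal.tsum_le_tsum fun p => ?_
  by_cases h : ∃ i ∈ I, p.1 ∈ A i
  · obtain ⟨i, hi, hp⟩ := h
    rw [Finset.sum_eq_single i]
    · simp only [Set.mem_ofPred_eq]
      split_ifs with h1 h2 h2
      · exact le_rfl
      · exact absurd ⟨⟨⟨i, hi, hp⟩, h1.1.2⟩, h1.2⟩ h2
      · exact zero_le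
      · exact le_rfl
    · intro j hj hji
      rw [if_neg]
      rintro ⟨⟨h1, _⟩, _⟩
      exact hji (hA j hj i hi _ h1 hp)
    · intro h1
      exact absurd hi h1
  · rw [Finset.sum_eq_zero]
    · exact zero_le
    · intro j hj
      rw [if_neg]
      rintro ⟨⟨h1, _⟩, _⟩
      exact h ⟨j, hj, h1⟩

end PU

end HexObs
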