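import Pool.Agent.NUX.Br3
import Pool.Agent.PU72.Ser

/-!
PU72: two free bridges with n letters together weigh at most `n ^ (1 / 8 + o(1))` (helper72).
-/

set_option autoImplicit false

namespace HexObs

namespace PU

open Finset BAR TS

open scoped ENNReal

lemma gs_BU_even (k : ℕ) : gs BU (2 * k) = ENNReal.ofReal (BrL.ub k) := by
  unfold BrL.ub
  rw [ENNReal.ofReal_toReal (BrL.BLs_ne_top _)]
  rfl

lemma gs_BU_odd {n : ℕ} (h : ¬ Even n) : gs BU n = 0 := by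
  unfold gs
  have e : {t : List Bool | t ∈ BU ∧ t.length = n} = ∅ := by
    ext t
    simp only [Set.mem_ofPred_eq, Set.mem_empty_iff_false, iff_false, not_and]
    rintro ⟨T, ht⟩ hl
    exact h (hl ▸ BrL.even_length ht)
  rw [e]
  simp [gf]

lemma gs_BU_ne_top (n : ℕ) : gs BU n ≠ ∞ := BrL.BLs_ne_top n

/-- bridges with n letters -/
lemma gs_BU_le (hH : NUX.Hi BrL.ub (9 / 16 - 1)) {ε : ℝ} (hε : 0 < ε) (hε1 : ε ≤ 1 / 16) :
    ∃ C : ℝ, 0 < C ∧ ∀ n : ℕ, 1 ≤ n → gs BU n ≤ ENNReal.ofReal (C * (n : ℝ) ^ (-(7 / 16) + ε)) := by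
  obtain ⟨C, hC, h⟩ := hH ε hε
  refine ⟨2 * C, by positivity, fun n hn => ?_⟩
  by_cases he : Even n
  · obtain ⟨k, hk⟩ := he
    have hk1 : 1 ≤ k := by omega
    have hnk : n = 2 * k := by omega
    rw [hnk, gs_BU_even]
    apply ENNReal.ofReal_le_ofReal
    refine (h k hk1).trans ?_
    have e : (9 / 16 - 1 + ε : ℝ) = -(7 / 16) + ε := by ring
    rw [e]
    push_cast
    have hk0 : (0 : ℝ) < k := by exact_mod_cast hk1
    rw [Real.mul_rpow (by norm_num) hk0.le]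
    have h2 : (1 : ℝ) / 2 ≤ 2 ^ (-(7 / 16) + ε) := by
      have : (1 : ℝ) / 2 = 2 ^ (-1 : ℝ) := by
        rw [Real.rpow_neg_one]
        norm_num
      rw [this]
      exact Real.rpow_le_rpow_of_exponent_le (by norm_num) (by linarith)
    have h3 : (0 : ℝ) < (k : ℝ) ^ (-(7 / 16) + ε) := by positivity
    calc C * (k : ℝ) ^ (-(7 / 16) + ε) = 2 * C * (1 / 2 * (k : ℝ) ^ (-(7 / 16) + ε)) := by ring
      _ ≤ 2 * C * (2 ^ (-(7 / 16) + ε) * (k : ℝ) ^ (-(7 / 16) + ε)) := by gcongr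
  · rw [gs_BU_odd he]
    exact zero_le

/-- bridges with at most n letters -/
lemma sum_gs_BU_le (hU : NUX.Hi (NUX.UU BrL.ub) (9 / 16)) {ε : ℝ} (hε : 0 < ε) :
    ∃ C : ℝ, 0 < C ∧ ∀ n : ℕ, 1 ≤ n → ∑ k ∈ range (n + 1), gs BU k ≤ ENNReal.ofReal (C * (n : ℝ) ^ (9 / 16 + ε)) := by
  obtain ⟨C, hC, h⟩ := hU ε hε
  refine ⟨C, hC, fun n hn => ?_⟩
  have h1 : ∑ k ∈ range (n + 1), gs BU k ≤ gf (BrL.SB n) := by
    unfold gs
    rw [← gf_biUnion]
    · apply gf_mono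
      intro t ht
      simp only [Set.mem_iUnion, Finset.mem_range] at ht
      obtain ⟨k, hk, h1, h2⟩ := ht
      exact ⟨h1, by omega⟩
    · intro i _ j _ hij
      rw [Set.disjoint_left]
      rintro t ⟨_, h3⟩ ⟨_, h4⟩
      omega
  refine h1.trans ?_
  rw [← ENNReal.ofReal_toReal (BrL.SB_ne_top n), ← BrL.UU_eq]
  exact ENNReal.ofReal_le_ofReal (h n hn)

/-- the convolution against the maximum on the upper half -/
lemma cv_self_le {f : ℕ → ℝ≥0∞} {n : ℕ} {M : ℝ≥0∞} (h : ∀ k, k ≤ n → n ≤ 2 * k → f k ≤ M) :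
    cv f f n ≤ 2 * (M * ∑ k ∈ range (n + 1), f k) := by
  unfold cv
  have h1 : ∀ p ∈ antidiagonal n, f p.1 * f p.2 ≤ M * f p.1 + M * f p.2 := by
    rintro ⟨i, j⟩ hp
    rw [HasAntidiagonal.mem_antidiagonal] at hp
    simp only at hp ⊢
    rcases le_total i j with hij | hij
    · have h2 := h j (by omega) (by omega)
      calc f i * f j ≤ f i * M := mul_le_mul' le_rfl h2
        _ = M * f i := mul_comm _ _
        _ ≤ _ := le_self_add
    · have h2 := h i (by omega) (by omega)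
      calc f i * f j ≤ M * f j := mul_le_mul' h2 le_rfl
        _ ≤ _ := le_add_self
  refine (Finset.sum_le_sum h1).trans (le_of_eq ?_)
  rw [Finset.sum_add_distrib, Finset.Nat.sum_antidiagonal_eq_sum_range_succ (fun i _ => M * f i) n,
    Finset.Nat.sum_antidiagonal_eq_sum_range_succ (fun _ j => M * f j) n]
  have h2 : ∑ k ∈ range n.succ, M * f (n - k) = ∑ k ∈ range n.succ, M * f k :=
    Finset.sum_range_reflect (fun k => M * f k) (n + 1)
  rw [h2, ← Finset.mul_sum]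
  ring

/-- **two free bridges** -/
theorem bb_sup (hH : NUX.Hi BrL.ub (9 / 16 - 1)) (hU : NUX.Hi (NUX.UU BrL.ub) (9 / 16)) {ε : ℝ} (hε : 0 < ε) :
    ∃ C : ℝ, 0 < C ∧ ∀ n : ℕ, 1 ≤ n → ∀ k : ℕ, k ≤ n →
      cv (gs BU) (gs BU) k ≤ ENNReal.ofReal (C * (n : ℝ) ^ (1 / 8 + ε)) := by
  obtain ⟨δ, hδ⟩ : ∃ δ : ℝ, δ = min (ε / 2) (1 / 16) := ⟨_, rfl⟩
  have hδ0 : 0 < δ := by rw [hδ]; exact lt_min (by positivity) (by norm_num)
  have hδ1 : δ ≤ 1 / 16 := by rw [hδ]; exact min_le_right _ _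
  have hδ2 : δ ≤ ε / 2 := by rw [hδ]; exact min_le_left _ _
  obtain ⟨C1, hC1, h1⟩ := gs_BU_le hH hδ0 hδ1
  obtain ⟨C2, hC2, h2⟩ := sum_gs_BU_le hU hδ0
  obtain ⟨K, hK⟩ : ∃ K : ℝ, K = (gs BU 0 * gs BU 0).toReal := ⟨_, rfl⟩
  have hK0 : 0 ≤ K := by rw [hK]; exact ENNReal.toReal_nonneg
  refine ⟨4 * C1 * C2 + K, by positivity, fun n hn k hk => ?_⟩
  have hnR : (1 : ℝ) ≤ n := by exact_mod_cast hn
  have hp1 : (1 : ℝ) ≤ (n : ℝ) ^ (1 / 8 + ε) := Real.one_le_rpow hnR (by linarith)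
  rcases Nat.eq_zero_or_pos k with h0 | h0
  · subst h0
    have e : cv (gs BU) (gs BU) 0 = gs BU 0 * gs BU 0 := by
      unfold cv
      rw [Finset.Nat.antidiagonal_zero, Finset.sum_singleton]
    rw [e, ← ENNReal.ofReal_toReal (ENNReal.mul_ne_top (gs_BU_ne_top 0) (gs_BU_ne_top 0)), ← hK]
    apply ENNReal.ofReal_le_ofReal
    have h3 : 0 < 4 * C1 * C2 := by positivity
    calc K = K * 1 := (mul_one K).symm
      _ ≤ (4 * C1 * C2 + K) * (n : ℝ) ^ (1 / 8 + ε) := by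
          apply mul_le_mul (by linarith) hp1 (by norm_num) (by positivity)
  · have hkR : (1 : ℝ) ≤ k := by exact_mod_cast h0
    have hk0 : (0 : ℝ) < k := by linarith
    have hM : ∀ j, j ≤ k → k ≤ 2 * j → gs BU j ≤ ENNReal.ofReal (C1 * (2 * (k : ℝ) ^ (-(7 / 16) + δ))) := by
      intro j hj1 hj2
      refine (h1 j (by omega)).trans (ENNReal.ofReal_le_ofReal ?_)
      apply mul_le_mul_of_nonneg_left _ hC1.le
      have hj0 : (0 : ℝ) < j := by exact_mod_cast (by omega : 0 < j)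
      have h3 : (k : ℝ) / 2 ≤ j := by
        have : (k : ℝ) ≤ 2 * j := by exact_mod_cast hj2
        linarith
      calc (j : ℝ) ^ (-(7 / 16) + δ) ≤ ((k : ℝ) / 2) ^ (-(7 / 16) + δ) :=
            Real.rpow_le_rpow_of_nonpos (by positivity) h3 (by linarith)
        _ = (k : ℝ) ^ (-(7 / 16) + δ) * (1 / 2) ^ (-(7 / 16) + δ) := by
            rw [div_eq_mul_one_div, Real.mul_rpow hk0.le (by norm_num)]
        _ ≤ (k : ℝ) ^ (-(7 / 16) + δ) * 2 := by
            apply mul_le_mul_of_nonneg_left _ (by positivity)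
            have e2 : (1 / 2 : ℝ) ^ (-(7 / 16) + δ) = 2 ^ (7 / 16 - δ) := by
              rw [one_div, Real.inv_rpow (by norm_num), ← Real.rpow_neg (by norm_num)]
              congr 1
              ring
            rw [e2]
            calc (2 : ℝ) ^ (7 / 16 - δ) ≤ 2 ^ (1 : ℝ) :=
                  Real.rpow_le_rpow_of_exponent_le (by norm_num) (by linarith)
              _ = 2 := Real.rpow_one 2
        _ = _ := by ring
    have h3 := cv_self_le hM
    have h4 := h2 k h0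
    refine h3.trans ?_
    calc 2 * (ENNReal.ofReal (C1 * (2 * (k : ℝ) ^ (-(7 / 16) + δ))) * ∑ j ∈ range (k + 1), gs BU j) ≤
          ENNReal.ofReal 2 * (ENNReal.ofReal (C1 * (2 * (k : ℝ) ^ (-(7 / 16) + δ))) *
            ENNReal.ofReal (C2 * (k : ℝ) ^ (9 / 16 + δ))) := by
          refine mul_le_mul' (le_of_eq ?_) (mul_le_mul' le_rfl h4)
          norm_num
      _ = ENNReal.ofReal (2 * ((C1 * (2 * (k : ℝ) ^ (-(7 / 16) + δ))) * (C2 * (k : ℝ) ^ (9 / 16 + δ)))) := by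
          rw [← ENNReal.ofReal_mul (by positivity), ← ENNReal.ofReal_mul (by norm_num)]
      _ ≤ _ := by
          apply ENNReal.ofReal_le_ofReal
          have e3 : (k : ℝ) ^ (-(7 / 16) + δ) * (k : ℝ) ^ (9 / 16 + δ) = (k : ℝ) ^ (1 / 8 + 2 * δ) := by
            rw [← Real.rpow_add hk0]
            congr 1
            ring
          have e4 : (k : ℝ) ^ (1 / 8 + 2 * δ) ≤ (n : ℝ) ^ (1 / 8 + ε) := by
            calc (k : ℝ) ^ (1 / 8 + 2 * δ) ≤ (n : ℝ) ^ (1 / 8 + 2 * δ) :=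
                  Real.rpow_le_rpow hk0.le (by exact_mod_cast hk) (by linarith)
              _ ≤ (n : ℝ) ^ (1 / 8 + ε) := Real.rpow_le_rpow_of_exponent_le hnR (by linarith)
          calc 2 * ((C1 * (2 * (k : ℝ) ^ (-(7 / 16) + δ))) * (C2 * (k : ℝ) ^ (9 / 16 + δ))) =
                4 * C1 * C2 * ((k : ℝ) ^ (-(7 / 16) + δ) * (k : ℝ) ^ (9 / 16 + δ)) := by ring
            _ = 4 * C1 * C2 * (k : ℝ) ^ (1 / 8 + 2 * δ) := by rw [e3]
            _ ≤ (4 * C1 * C2 + K) * (n : ℝ) ^ (1 / 8 + ε) :=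
                mul_le_mul (by linarith) e4 (by positivity) (by positivity)

end PU

end HexObs
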