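import Pool.Agent.PU72.Fin

/-!
PU72: both bounds for the number of self-avoiding walks with exactly n steps on the honeycomb lattice, in the
form of the frozen statement S19669, from the lower bound.
-/

set_option autoImplicit false

open Filter

namespace HexObs

namespace PU

theorem muB_pos : 0 < muB := by
  rw [BAR.muB_eq]
  exact one_div_pos.2 xc_pos

/-- a constant is absorbed by a power -/
theorem absorb {C η : ℝ} (hη : 0 < η) : ∀ᶠ n : ℕ in atTop, C ≤ (n : ℝ) ^ η :=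
  ((tendsto_rpow_atTop hη).comp tendsto_natCast_atTop_atTop).eventually_ge_atTop C

/-- **the exponent `11 / 32` on the honeycomb lattice, form of S19669** -/
theorem both (hl : ∀ ε : ℝ, 0 < ε → ∃ c : ℝ, 0 < c ∧ ∀ᶠ n : ℕ in atTop,
      c * (n : ℝ) ^ (11 / 32 - ε) * muB ^ n ≤ (aB n : ℝ)) {ε : ℝ} (hε : 0 < ε) :
    ∀ᶠ n : ℕ in atTop, muB ^ n * (n : ℝ) ^ ((11 : ℝ) / 32 - ε) ≤ (aB n : ℝ) ∧
      (aB n : ℝ) ≤ muB ^ n * (n : ℝ) ^ ((11 : ℝ) / 32 + ε) := by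
  have hμ := muB_pos
  obtain ⟨C, hC, hb⟩ := aB_le (ε := ε / 2) (by positivity)
  obtain ⟨c, hc, hlow⟩ := hl (ε / 2) (by positivity)
  filter_upwards [hlow, absorb (C := C) (η := ε / 2) (by positivity),
    absorb (C := c⁻¹) (η := ε / 2) (by positivity), eventually_ge_atTop 1] with n h1 h2 h3 hn
  have hn0 : (0 : ℝ) < n := by exact_mod_cast hn
  constructor
  · refine le_trans ?_ h1
    have e1 : (n : ℝ) ^ ((11 : ℝ) / 32 - ε) * (n : ℝ) ^ (ε / 2) = (n : ℝ) ^ ((11 : ℝ) / 32 - ε / 2) := by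
      rw [← Real.rpow_add hn0]
      congr 1
      ring
    have h4 : 1 ≤ c * (n : ℝ) ^ (ε / 2) := by
      rw [← inv_mul_cancel₀ hc.ne', mul_comm]
      exact mul_le_mul_of_nonneg_left h3 hc.le
    have p1 : 0 ≤ (n : ℝ) ^ ((11 : ℝ) / 32 - ε) := by positivity
    calc muB ^ n * (n : ℝ) ^ ((11 : ℝ) / 32 - ε) =
        1 * ((n : ℝ) ^ ((11 : ℝ) / 32 - ε) * muB ^ n) := by ring
      _ ≤ (c * (n : ℝ) ^ (ε / 2)) * ((n : ℝ) ^ ((11 : ℝ) / 32 - ε) * muB ^ n) :=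
          mul_le_mul_of_nonneg_right h4 (by positivity)
      _ = c * ((n : ℝ) ^ ((11 : ℝ) / 32 - ε) * (n : ℝ) ^ (ε / 2)) * muB ^ n := by ring
      _ = _ := by rw [e1]
  · refine (hb n hn).trans ?_
    have e1 : (n : ℝ) ^ (ε / 2) * (n : ℝ) ^ ((11 : ℝ) / 32 + ε / 2) = (n : ℝ) ^ ((11 : ℝ) / 32 + ε) := by
      rw [← Real.rpow_add hn0]
      congr 1
      ring
    calc C * (n : ℝ) ^ ((11 : ℝ) / 32 + ε / 2) * muB ^ n ≤
        (n : ℝ) ^ (ε / 2) * (n : ℝ) ^ ((11 : ℝ) / 32 + ε / 2) * muB ^ n := by gcongr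
      _ = _ := by rw [e1]; ring

end PU

end HexObs
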