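import Pool.Agent.PU72.CutA
import Pool.Agent.PU72.Ser

/-!
PU72, module Cut, part B (helper68): all walks with N letters, cut at the leftmost lowest vertex, at the last highest
vertex of the taller half plane word and at the jump of its bridge over the height v; average over v.
-/

set_option autoImplicit false

namespace HexObs

open Complex Finset ENNReal BAR

namespace PU

namespace CutAux

open Classical in
lemma window {α : Type*} (Y : Set α) (l : α → ℕ) (v : α → ℝ≥0∞) (N : ℕ) :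
    ∑' y : {y | y ∈ Y ∧ N ≤ l y + 1 ∧ l y ≤ N + 2}, v y.1 ≤ ∑ k ∈ range 4, law Y l v (N + 2 - k) := by
  simp only [law_ind]
  rw [← Summable.tsum_finsetSum fun i _ => ENNReal.summable,
    tsum_subtype {y | y ∈ Y ∧ N ≤ l y + 1 ∧ l y ≤ N + 2} v]
  refine ENNReal.tsum_le_tsum fun y => ?_
  by_cases hy : y ∈ {y | y ∈ Y ∧ N ≤ l y + 1 ∧ l y ≤ N + 2}
  · rw [Set.indicator_of_mem hy]
    obtain ⟨h1, h2, h3⟩ := hy
    refine le_trans (le_of_eq ?_) (Finset.single_le_sum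
      (f := fun k => if y ∈ Y ∧ l y = N + 2 - k then v y else 0) (fun _ _ => zero_le)
      (Finset.mem_range.2 (show N + 2 - l y < 4 by omega)))
    rw [if_pos ⟨h1, by omega⟩]
  · rw [Set.indicator_of_notMem hy]
    exact zero_le

/-- the five pieces -/
def Y5 (i r u d : ℕ) : Set ((List Bool × List Bool) × (List Bool × (List Bool × List Bool))) :=
  {p : List Bool × List Bool | p.1 ∈ Brd i ∧ p.2 ∈ SSt d ∧ Dj p.1 p.2} ×ˢ
    (Irr r ×ˢ {p : List Bool × List Bool | p.1 ∈ Brd u ∧ p.2 ∈ SSt d ∧ Dj p.1 p.2})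

def l5 (y : (List Bool × List Bool) × (List Bool × (List Bool × List Bool))) : ℕ :=
  (y.1.1.length + y.1.2.length) + (y.2.1.length + (y.2.2.1.length + y.2.2.2.length))

noncomputable def w5 (y : (List Bool × List Bool) × (List Bool × (List Bool × List Bool))) : ℝ≥0∞ :=
  (wE y.1.1 * wE y.1.2) * (wE y.2.1 * (wE y.2.2.1 * wE y.2.2.2))

lemma law5 (i r u d : ℕ) : law (Y5 i r u d) l5 w5 =
    cv (gs2 (Brd i) (SSt d) Dj) (cv (gs (Irr r)) (gs2 (Brd u) (SSt d) Dj)) := by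
  funext n
  rw [gs2_law, gs_law, gs2_law]
  have h1 : cv (law (Irr r) List.length wE) (law {p : List Bool × List Bool | p.1 ∈ Brd u ∧ p.2 ∈ SSt d ∧ Dj p.1 p.2}
      (fun p => p.1.length + p.2.length) (fun p => wE p.1 * wE p.2)) =
      law (Irr r ×ˢ {p : List Bool × List Bool | p.1 ∈ Brd u ∧ p.2 ∈ SSt d ∧ Dj p.1 p.2})
        (fun x => x.1.length + (x.2.1.length + x.2.2.length)) (fun x => wE x.1 * (wE x.2.1 * wE x.2.2)) := by
    funext k
    exact (law_prod _ _ _ _ _ _ k).symm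
  rw [h1]
  exact law_prod {p : List Bool × List Bool | p.1 ∈ Brd i ∧ p.2 ∈ SSt d ∧ Dj p.1 p.2}
    (Irr r ×ˢ {p : List Bool × List Bool | p.1 ∈ Brd u ∧ p.2 ∈ SSt d ∧ Dj p.1 p.2})
    (fun p => p.1.length + p.2.length) (fun x => x.1.length + (x.2.1.length + x.2.2.length))
    (fun p => wE p.1 * wE p.2) (fun x => wE x.1 * (wE x.2.1 * wE x.2.2)) n

lemma w5_eq (y : (List Bool × List Bool) × (List Bool × (List Bool × List Bool))) :
    w5 y = ENNReal.ofReal (xc ^ l5 y) := by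
  have h : ∀ a b : ℕ, ENNReal.ofReal (xc ^ (a + b)) = ENNReal.ofReal (xc ^ a) * ENNReal.ofReal (xc ^ b) := by
    intro a b
    rw [pow_add, ENNReal.ofReal_mul (pow_nonneg xc_nonneg _)]
  unfold w5 l5 wE
  rw [h, h, h, h]

lemma wE_le4 {t : List Bool} {k : ℕ} (h : k ≤ t.length + 2) : wE t ≤ 4 * ENNReal.ofReal (xc ^ k) := by
  unfold wE
  rw [show (4 : ℝ≥0∞) = ENNReal.ofReal 4 by norm_num, ← ENNReal.ofReal_mul (by norm_num)]
  refine ENNReal.ofReal_le_ofReal ?_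
  have h1 := half_le_xc
  have h0 : xc ≤ 1 := by
    have := B2b_wE_le_one [true]
    unfold wE at this
    rw [List.length_singleton, pow_one, ENNReal.ofReal_le_one] at this
    exact this
  have h2 : 0 ≤ xc ^ t.length := pow_nonneg xc_nonneg _
  have h3 : xc ^ (t.length + 2) ≤ xc ^ k := pow_le_pow_of_le_one xc_nonneg h0 h
  have h4 : 1 ≤ (2 * xc) ^ 2 := one_le_pow₀ h1
  calc xc ^ t.length = xc ^ t.length * 1 := (mul_one _).symm
    _ ≤ xc ^ t.length * (2 * xc) ^ 2 := mul_le_mul_of_nonneg_left h4 h2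
    _ = 4 * xc ^ (t.length + 2) := by ring
    _ ≤ _ := mul_le_mul_of_nonneg_left h3 (by norm_num)

/-- the words rebuilt with the code κ -/
def BW (κ : Cod) (i r u d : ℕ) : Set (List Bool) :=
  {t | ∃ y ∈ Y5 i r u d, Rec κ y.1.1 y.1.2 y.2.1 y.2.2.1 y.2.2.2 = t ∧ t.length ≤ l5 y + 1 ∧ l5 y ≤ t.length + 2}

/-- the law of the five pieces -/
noncomputable def F5 (i r u d n : ℕ) : ℝ≥0∞ :=
  cv (gs2 (Brd i) (SSt d) Dj) (cv (gs (Irr r)) (gs2 (Brd u) (SSt d) Dj)) n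

lemma gs_BW (κ : Cod) (i r u d N : ℕ) : gs (BW κ i r u d) N ≤ 4 * ∑ k ∈ range 4, F5 i r u d (N + 2 - k) := by
  have h1 : gs (BW κ i r u d) N ≤
      ∑' y : {y | y ∈ Y5 i r u d ∧ N ≤ l5 y + 1 ∧ l5 y ≤ N + 2}, 4 * w5 y.1 := by
    have hX : gs (BW κ i r u d) N = ∑' x : {t | t ∈ BW κ i r u d ∧ t.length = N}, wE x.1 := rfl
    rw [hX]
    refine (cover (X := {t | t ∈ BW κ i r u d ∧ t.length = N})
      (Y := {y | (y ∈ Y5 i r u d ∧ N ≤ l5 y + 1 ∧ l5 y ≤ N + 2) ∧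
        (Rec κ y.1.1 y.1.2 y.2.1 y.2.2.1 y.2.2.2).length = N})
      (fun y => Rec κ y.1.1 y.1.2 y.2.1 y.2.2.1 y.2.2.2) wE ?_).trans ?_
    · rintro t ⟨⟨y, hy, rfl, h2, h3⟩, hN⟩
      refine ⟨y, ⟨⟨hy, ?_, ?_⟩, hN⟩, rfl⟩
      · omega
      · omega
    · refine (ENNReal.tsum_le_tsum (g := fun y : {y | (y ∈ Y5 i r u d ∧ N ≤ l5 y + 1 ∧ l5 y ≤ N + 2) ∧
        (Rec κ y.1.1 y.1.2 y.2.1 y.2.2.1 y.2.2.2).length = N} => 4 * w5 y.1) ?_).trans ?_
      · rintro ⟨y, ⟨hy, h2, h3⟩, hN⟩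
        show wE (Rec κ y.1.1 y.1.2 y.2.1 y.2.2.1 y.2.2.2) ≤ 4 * w5 y
        rw [w5_eq]
        exact wE_le4 (by rw [hN]; exact h3)
      · exact ENNReal.tsum_mono_subtype (fun y => 4 * w5 y) (fun y hy => hy.1)
  refine h1.trans ?_
  rw [ENNReal.tsum_mul_left]
  refine mul_le_mul' le_rfl ((window _ _ _ N).trans (le_of_eq ?_))
  refine Finset.sum_congr rfl fun k _ => ?_
  rw [law5]
  rfl

/-- the words whose taller half plane word has the height D ≤ T < 2 D -/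
def AD (D : ℕ) : Set (List Bool) := {t | ∃ T, D ≤ T ∧ T < 2 * D ∧ ∃ P Q, FD T t P Q}

/-- the index set -/
def IX (D : ℕ) : Finset (Cod × (ℕ × ℕ × ℕ)) :=
  Finset.univ ×ˢ (range (4 * D + 1) ×ˢ (range (2 * D + 1) ×ˢ range (4 * D + 1)))

lemma gs_AD_v {D v : ℕ} (hv : v < D) (N : ℕ) : gs (AD D) N ≤
    ∑ x ∈ IX D, if x.2.1 ≤ v ∧ v < x.2.1 + x.2.2.1 then
      4 * ∑ k ∈ range 4, F5 x.2.1 x.2.2.1 x.2.2.2 (4 * D) (N + 2 - k) else 0 := by
  have h := gs_biUnion (I := (IX D).filter fun x => x.2.1 ≤ v ∧ v < x.2.1 + x.2.2.1) (AD D)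
    (fun x => BW x.1 x.2.1 x.2.2.1 x.2.2.2 (4 * D)) (by
      rintro t ⟨T, h1, h2, P, Q, hFD⟩
      obtain ⟨κ, i, r, u, e1, e2, e3, e4, a, ha, p, hp, U, hU, H, hH, d1, d2, ht, l1, l2⟩ :=
        full_dec (v := v) (by omega) hFD
      refine ⟨(κ, i, r, u), ?_, ?_⟩
      · rw [Finset.mem_filter]
        refine ⟨?_, e1, e2⟩
        unfold IX
        simp only [Finset.mem_product, Finset.mem_univ, Finset.mem_range, true_and]
        omega
      · exact ⟨((a, Q), (p, (U, H))), ⟨⟨ha, SSt_mono (by omega) hFD.2.1, d1⟩, hp, hU, SSt_mono (by omega) hH, d2⟩,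
          ht.symm, l1, l2⟩) N
  refine h.trans ?_
  rw [Finset.sum_filter]
  refine Finset.sum_le_sum fun x _ => ?_
  split_ifs with hx
  · exact gs_BW _ _ _ _ _ N
  · exact le_rfl

lemma card_jump (D i r : ℕ) : ∑ v ∈ range D, (if i ≤ v ∧ v < i + r then (1 : ℝ≥0∞) else 0) ≤ ((min r D : ℕ) : ℝ≥0∞) := by
  rw [← Finset.sum_filter, Finset.sum_const, nsmul_eq_mul, mul_one, Nat.cast_le]
  refine Nat.le_min.2 ⟨?_, ?_⟩
  · refine (Finset.card_le_card (t := Finset.Ico i (i + r)) ?_).trans (le_of_eq ?_)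
    · intro v hv
      rw [Finset.mem_filter] at hv
      exact Finset.mem_Ico.2 hv.2
    · rw [Nat.card_Ico]
      omega
  · refine (Finset.card_le_card (Finset.filter_subset _ _)).trans (le_of_eq ?_)
    exact Finset.card_range D

lemma card_Cod : (Finset.univ : Finset Cod).card = 640 := by
  rw [Finset.card_univ]
  simp only [Cod, Fintype.card_prod, Fintype.card_fin, Fintype.card_bool]

lemma cv_sum_right {ι : Type*} (I : Finset ι) (f : ℕ → ℝ≥0∞) (g : ι → ℕ → ℝ≥0∞) (n : ℕ) :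
    cv f (fun k => ∑ i ∈ I, g i k) n = ∑ i ∈ I, cv f (g i) n := by
  rw [cv_comm, cv_sum_left]
  exact Finset.sum_congr rfl fun i _ => by rw [cv_comm]

/-- the convolution of the laws as a sum over the heights -/
lemma cv_full (D n : ℕ) : cv (PZ (4 * D)) (cv (JZ D) (PZ (4 * D))) n =
    ∑ i ∈ range (4 * D + 1), ∑ r ∈ range (2 * D + 1), ∑ u ∈ range (4 * D + 1),
      ((min r D : ℕ) : ℝ≥0∞) * F5 i r u (4 * D) n := by
  have e1 : PZ (4 * D) = fun k => ∑ u ∈ range (4 * D + 1), gs2 (Brd u) (SSt (4 * D)) Dj k := rfl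
  have e2 : JZ D = fun k => ∑ r ∈ range (2 * D + 1), ((min r D : ℕ) : ℝ≥0∞) * gs (Irr r) k := rfl
  have e3 : cv (JZ D) (PZ (4 * D)) = fun k => ∑ r ∈ range (2 * D + 1), ∑ u ∈ range (4 * D + 1),
      ((min r D : ℕ) : ℝ≥0∞) * cv (gs (Irr r)) (gs2 (Brd u) (SSt (4 * D)) Dj) k := by
    funext k
    rw [e2, cv_sum_left]
    refine Finset.sum_congr rfl fun r _ => ?_
    rw [e1, cv_sum_right]
    refine Finset.sum_congr rfl fun u _ => ?_
    exact cv_smul_left _ _ _ k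
  rw [e3]
  nth_rewrite 1 [e1]
  rw [cv_sum_left]
  refine Finset.sum_congr rfl fun i _ => ?_
  rw [cv_sum_right]
  refine Finset.sum_congr rfl fun r _ => ?_
  rw [cv_sum_right]
  refine Finset.sum_congr rfl fun u _ => ?_
  rw [cv_smul_right]
  rfl

lemma gs_AD (D N : ℕ) : (D : ℝ≥0∞) * gs (AD D) N ≤
    2560 * ∑ k ∈ range 4, cv (PZ (4 * D)) (cv (JZ D) (PZ (4 * D))) (N + 2 - k) := by
  have h1 : (D : ℝ≥0∞) * gs (AD D) N = ∑ v ∈ range D, gs (AD D) N := by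
    rw [Finset.sum_const, Finset.card_range, nsmul_eq_mul]
  rw [h1]
  calc ∑ v ∈ range D, gs (AD D) N
      ≤ ∑ v ∈ range D, ∑ x ∈ IX D, (if x.2.1 ≤ v ∧ v < x.2.1 + x.2.2.1 then (1 : ℝ≥0∞) else 0) *
        (4 * ∑ k ∈ range 4, F5 x.2.1 x.2.2.1 x.2.2.2 (4 * D) (N + 2 - k)) := by
        refine Finset.sum_le_sum fun v hv => (gs_AD_v (Finset.mem_range.1 hv) N).trans (le_of_eq ?_)
        refine Finset.sum_congr rfl fun x _ => ?_
        rw [ite_mul, one_mul, zero_mul]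
    _ = ∑ x ∈ IX D, (∑ v ∈ range D, (if x.2.1 ≤ v ∧ v < x.2.1 + x.2.2.1 then (1 : ℝ≥0∞) else 0)) *
        (4 * ∑ k ∈ range 4, F5 x.2.1 x.2.2.1 x.2.2.2 (4 * D) (N + 2 - k)) := by
        rw [Finset.sum_comm]
        exact Finset.sum_congr rfl fun x _ => (Finset.sum_mul _ _ _).symm
    _ ≤ ∑ x ∈ IX D, ((min x.2.2.1 D : ℕ) : ℝ≥0∞) *
        (4 * ∑ k ∈ range 4, F5 x.2.1 x.2.2.1 x.2.2.2 (4 * D) (N + 2 - k)) :=
        Finset.sum_le_sum fun x _ => mul_le_mul' (card_jump _ _ _) le_rfl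
    _ = 640 * ∑ i ∈ range (4 * D + 1), ∑ r ∈ range (2 * D + 1), ∑ u ∈ range (4 * D + 1),
        ((min r D : ℕ) : ℝ≥0∞) * (4 * ∑ k ∈ range 4, F5 i r u (4 * D) (N + 2 - k)) := by
        unfold IX
        simp only [Finset.sum_product]
        rw [Finset.sum_const, card_Cod, nsmul_eq_mul]
        norm_num
    _ = 640 * (4 * ∑ k ∈ range 4, ∑ i ∈ range (4 * D + 1), ∑ r ∈ range (2 * D + 1), ∑ u ∈ range (4 * D + 1),
        ((min r D : ℕ) : ℝ≥0∞) * F5 i r u (4 * D) (N + 2 - k)) := by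
        congr 1
        rw [Finset.sum_comm (s := range 4), Finset.mul_sum]
        refine Finset.sum_congr rfl fun i _ => ?_
        rw [Finset.sum_comm (s := range 4), Finset.mul_sum]
        refine Finset.sum_congr rfl fun r _ => ?_
        rw [Finset.sum_comm (s := range 4), Finset.mul_sum]
        refine Finset.sum_congr rfl fun u _ => ?_
        rw [Finset.mul_sum, Finset.mul_sum, Finset.mul_sum]
        exact Finset.sum_congr rfl fun k _ => by ring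
    _ = 2560 * ∑ k ∈ range 4, cv (PZ (4 * D)) (cv (JZ D) (PZ (4 * D))) (N + 2 - k) := by
        simp only [cv_full]
        rw [← mul_assoc]
        norm_num

end CutAux

open CutAux

/-- the cut of all walks with N letters and an extent of at most m rows -/
theorem cut : ∃ C : ℝ, ∀ m N : ℕ, 3 ≤ N → gs {t | Saw Set.univ oo up t ∧ Ext m t} N ≤
    ENNReal.ofReal C * ∑ j ∈ range (Nat.log 2 m + 1), ((2 : ℝ≥0∞) ^ j)⁻¹ * ∑ k ∈ range 12,
      cv (PZ (2 ^ (j + 2))) (cv (JZ (2 ^ j)) (PZ (2 ^ (j + 2)))) (N + 3 - k) := by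
  refine ⟨2560, fun m N hN => ?_⟩
  have h1 : gs {t | Saw Set.univ oo up t ∧ Ext m t} N ≤ ∑ j ∈ range (Nat.log 2 m + 1), gs (AD (2 ^ j)) N := by
    have hsub : {t | t ∈ {t | Saw Set.univ oo up t ∧ Ext m t} ∧ t.length = N} ⊆
        {t | t ∈ {t | (Saw Set.univ oo up t ∧ Ext m t) ∧ 3 ≤ t.length} ∧ t.length = N} := by
      rintro t ⟨h1, h2⟩
      exact ⟨⟨h1, by rw [h2]; exact hN⟩, h2⟩
    refine (gf_mono hsub).trans ?_
    refine gs_biUnion (range (Nat.log 2 m + 1)) {t | (Saw Set.univ oo up t ∧ Ext m t) ∧ 3 ≤ t.length}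
      (fun j => AD (2 ^ j)) ?_ N
    rintro t ⟨⟨hs, he⟩, hl⟩
    obtain ⟨T, hT, h0, P, Q, hFD⟩ := front_dec hs he
    have hT0 : T ≠ 0 := by
      intro h
      have := h0 h
      omega
    refine ⟨Nat.log 2 T, ?_, T, Nat.pow_log_le_self 2 hT0, ?_, P, Q, hFD⟩
    · rw [Finset.mem_range]
      have := Nat.log_mono_right (b := 2) hT
      omega
    · have := Nat.lt_pow_succ_log_self (b := 2) (by norm_num) T
      rw [pow_succ] at this
      omega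
  refine h1.trans ?_
  rw [Finset.mul_sum]
  refine Finset.sum_le_sum fun j _ => ?_
  have h2 := gs_AD (2 ^ j) N
  have hpow : (2 : ℝ≥0∞) ^ j ≠ 0 := pow_ne_zero _ (by norm_num)
  have hpow' : (2 : ℝ≥0∞) ^ j ≠ ⊤ := ENNReal.pow_ne_top (by norm_num)
  have hD : 4 * 2 ^ j = 2 ^ (j + 2) := by ring
  rw [hD] at h2
  have h3 : ∑ k ∈ range 4, cv (PZ (2 ^ (j + 2))) (cv (JZ (2 ^ j)) (PZ (2 ^ (j + 2)))) (N + 2 - k) ≤
      ∑ k ∈ range 12, cv (PZ (2 ^ (j + 2))) (cv (JZ (2 ^ j)) (PZ (2 ^ (j + 2)))) (N + 3 - k) := by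
    have e : ∀ k ∈ range 4, cv (PZ (2 ^ (j + 2))) (cv (JZ (2 ^ j)) (PZ (2 ^ (j + 2)))) (N + 2 - k) =
        cv (PZ (2 ^ (j + 2))) (cv (JZ (2 ^ j)) (PZ (2 ^ (j + 2)))) (N + 3 - (k + 1)) := by
      intro k _
      rw [show N + 3 - (k + 1) = N + 2 - k by omega]
    rw [Finset.sum_congr rfl e, Finset.sum_range_succ' _ 11]
    refine le_trans ?_ le_self_add
    exact Finset.sum_le_sum_of_subset (Finset.range_mono (by norm_num))
  have h4 : (((2 ^ j : ℕ)) : ℝ≥0∞) = (2 : ℝ≥0∞) ^ j := by push_cast; rfl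
  rw [h4] at h2
  calc gs (AD (2 ^ j)) N = ((2 : ℝ≥0∞) ^ j)⁻¹ * ((2 : ℝ≥0∞) ^ j * gs (AD (2 ^ j)) N) := by
        rw [← mul_assoc, ENNReal.inv_mul_cancel hpow hpow', one_mul]
    _ ≤ ((2 : ℝ≥0∞) ^ j)⁻¹ * (2560 * ∑ k ∈ range 12,
        cv (PZ (2 ^ (j + 2))) (cv (JZ (2 ^ j)) (PZ (2 ^ (j + 2)))) (N + 3 - k)) :=
        mul_le_mul' le_rfl (h2.trans (mul_le_mul' le_rfl h3))
    _ = ENNReal.ofReal 2560 * (((2 : ℝ≥0∞) ^ j)⁻¹ * ∑ k ∈ range 12,
        cv (PZ (2 ^ (j + 2))) (cv (JZ (2 ^ j)) (PZ (2 ^ (j + 2)))) (N + 3 - k)) := by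
        rw [show ENNReal.ofReal 2560 = (2560 : ℝ≥0∞) by norm_num]
        ring

end PU

end HexObs
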