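import Pool.Agent.PU72.Defs
import Pool.Agent.GLow.FrontL
import Pool.Agent.PHW.TopA
import Pool.Agent.PHW.TopC
import Pool.Agent.PHW.HangA
import Pool.Agent.PHW.Jump
import Pool.Agent.PHW.Rotate

/-!
PU72, module Cut, part A (helper68): a word is rebuilt from a bridge beside a half plane word, an irreducible bridge
and a second bridge beside a half plane word.
-/

set_option autoImplicit false

namespace HexObs

open Complex Finset ENNReal BAR HangA

namespace PU

/-- P has its highest vertices on the level 3 T or 3 T + 2 -/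
def Top (T : ℕ) (P : List Bool) : Prop := P ∈ HT T ∨ ∃ g ∈ Brd T, ∃ c, P = g ++ [c]

lemma Top_of {m : ℕ} {P : List Bool} (h : P ∈ SSt m) : ∃ T ≤ m, Top T P := by
  rcases SSt_cases h with ⟨T, h1, h2⟩ | ⟨T, h1, h2⟩
  · exact ⟨T, h1, Or.inl h2⟩
  · exact ⟨T, h1.le, Or.inr h2⟩

lemma one_SSt (c : Bool) : [c] ∈ SSt 1 := by
  refine ⟨?_, ?_⟩
  · intro i h1 h2
    have h3 : i = 1 := by
      simp only [List.length_cons, List.length_nil] at h2
      omega
    subst h3
    rw [mem_St, lev_succ, lev_zero]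
    have : dx up [c] 0 = up := rfl
    rw [this]
    have e : ip up up = 2 := by decide
    rw [e]
    norm_num
  · intro i k h1 h2
    simp only [List.length_cons, List.length_nil] at h2
    have h3 : i = 0 := by omega
    have h4 : k = 1 := by omega
    subst h3
    subst h4
    rw [vx_one]
    show oo ≠ up
    decide

lemma Top_SSt {T : ℕ} {P : List Bool} (h : Top T P) : P ∈ SSt (T + 1) := by
  rcases h with h | ⟨g, hg, c, rfl⟩
  · exact SSt_mono (Nat.le_succ T) h.1
  · exact SSt_cat hg (one_SSt c)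

lemma Top_not {T : ℕ} {P : List Bool} (h : Top T P) : Top T (P.map not) := by
  rcases h with ⟨h1, i, h2, h3⟩ | ⟨g, hg, c, rfl⟩
  · refine Or.inl ⟨SSt_not h1, i, ?_, ?_⟩
    · rw [List.length_map]
      exact h2
    · rw [lev_not P (by omega)]
      exact h3
  · refine Or.inr ⟨g.map not, Brd_not hg, !c, ?_⟩
    simp

/-- the half plane word with the bridge g up to the last highest vertex and the hanging word h -/
def RT (k : Fin 4) (x z b : Bool) (g h : List Bool) : List Bool :=
  match k with
  | 0 => g.dropLast ++ [x]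
  | 1 => g.dropLast ++ ((!b) :: (!b) :: (h.drop 2 ++ if z then [x] else []))
  | 2 => g.dropLast ++ [x, !x]
  | 3 => g ++ [x]

lemma Dj_nil_right (s : List Bool) : Dj s [] := by
  unfold Dj
  rw [Set.disjoint_left]
  rintro p _ ⟨j, h1, h2, _⟩
  simp only [List.length_nil] at h2
  omega

lemma Top_dec {T : ℕ} (hT : 1 ≤ T) {P : List Bool} (hP : Top T P) :
    ∃ g ∈ Brd T, ∃ h ∈ SSt T, ∃ k x z b, P = RT k x z b g h ∧
      (if b = true then Dj h (rev g) else Dj (rev g) h) ∧
      P.length ≤ g.length + h.length + 1 ∧ g.length + h.length ≤ P.length + 1 ∧ ∀ Q, Dj P Q → Dj g Q := by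
  rcases hP with hP | ⟨g, hg, c, rfl⟩
  swap
  · refine ⟨g, hg, [], nil_SSt T, 3, c, false, false, rfl, ?_, ?_, ?_, ?_⟩
    · rw [if_neg (by decide)]
      exact Dj_nil_right _
    · rw [List.length_append]
      simp
    · rw [List.length_append]
      simp
      omega
    · intro Q hQ
      exact Dj_pref_left hQ
  obtain ⟨s, b, hg, hcase⟩ := HT_split hT hP
  have hlast : ∀ {w Q : List Bool} (x : Bool), Dj (s ++ x :: w) Q → Dj (s ++ [b]) Q := by
    intro w Q x h
    have h1 : s ++ x :: w = (s ++ [x]) ++ w := by simp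
    rw [h1] at h
    exact Dj_last_left x b (Dj_pref_left h)
  rcases hcase with ⟨c, rfl⟩ | ⟨r, e, hr, he, hh, ht⟩
  · refine ⟨s ++ [b], hg, [], nil_SSt T, 0, c, false, false, ?_, ?_, ?_, ?_, ?_⟩
    · show _ = (s ++ [b]).dropLast ++ [c]
      rw [List.dropLast_concat]
    · rw [if_neg (by decide)]
      exact Dj_nil_right _
    · simp
    · simp
    · intro Q hQ
      exact hlast c hQ
  · have hh0 := hh [] (Or.inl rfl)
    rw [List.nil_append] at hh0
    rcases ht with rfl | ⟨rfl, rfl⟩
    · -- the general case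
      have hr2 : (!b) :: b :: r ∈ SSt T := by
        have := SSt_step (b := b) hr
        rwa [show T - 1 + 1 = T by omega] at this
      obtain ⟨x, z, hxz⟩ : ∃ x z : Bool, e = if z then [x] else [] := by
        rcases e with _ | ⟨y, e⟩
        · exact ⟨false, false, rfl⟩
        · have : e = [] := by
            simp only [List.length_cons] at he
            exact List.length_eq_zero_iff.1 (by omega)
          subst this
          exact ⟨y, true, rfl⟩
      refine ⟨s ++ [b], hg, (!b) :: b :: r, hr2, 1, x, z, b, ?_, ?_, ?_, ?_, ?_⟩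
      · show _ = (s ++ [b]).dropLast ++ ((!b) :: (!b) :: (((!b) :: b :: r).drop 2 ++ if z then [x] else []))
        rw [List.dropLast_concat, ← hxz]
        rfl
      · cases b
        · rw [if_neg (by decide)]
          unfold Hang at hh0
          rw [if_neg (by decide)] at hh0
          exact hh0
        · rw [if_pos rfl]
          unfold Hang at hh0
          rw [if_pos rfl] at hh0
          exact hh0
      · simp only [List.length_append, List.length_cons, List.length_nil]
        omega
      · simp only [List.length_append, List.length_cons, List.length_nil]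
        omega
      · intro Q hQ
        exact hlast (!b) hQ
    · refine ⟨s ++ [b], hg, [], nil_SSt T, 2, !b, false, false, ?_, ?_, ?_, ?_, ?_⟩
      · show _ = (s ++ [b]).dropLast ++ [!b, !(!b)]
        rw [List.dropLast_concat, Bool.not_not]
      · rw [if_neg (by decide)]
        exact Dj_nil_right _
      · simp only [List.length_append, List.length_cons, List.length_nil]
        omega
      · simp only [List.length_append, List.length_cons, List.length_nil]
        omega
      · intro Q hQ
        exact hlast (!b) hQ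

/-- the mirror image, if s -/
def mz (s : Bool) (w : List Bool) : List Bool := if s then w.map not else w

lemma mz_mz (s : Bool) (w : List Bool) : mz s (mz s w) = w := by
  cases s
  · rfl
  · exact map_not_not w

lemma mz_length (s : Bool) (w : List Bool) : (mz s w).length = w.length := by
  cases s
  · rfl
  · exact List.length_map _

lemma mz_Brd {s : Bool} {T : ℕ} {w : List Bool} (h : w ∈ Brd T) : mz s w ∈ Brd T := by
  cases s
  · exact h
  · exact Brd_not h

lemma mz_SSt {s : Bool} {T : ℕ} {w : List Bool} (h : w ∈ SSt T) : mz s w ∈ SSt T := by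
  cases s
  · exact h
  · exact SSt_not h

lemma pair_dec {T v : ℕ} (hv : v < T) {P Q : List Bool} (hP : Top T P) (hD : Dj P Q) :
    ∃ i r u, i ≤ v ∧ v < i + r ∧ i + r ≤ T ∧ u ≤ T ∧ ∃ a ∈ Brd i, ∃ p ∈ Irr r, ∃ U ∈ Brd u, ∃ H ∈ SSt T,
      Dj a Q ∧ Dj U H ∧ ∃ k x z b, P = RT k x z b (a ++ p ++ rev (mz b U)) (mz b H) ∧
      P.length ≤ a.length + p.length + U.length + H.length + 1 ∧
      a.length + p.length + U.length + H.length ≤ P.length + 1 := by
  obtain ⟨g, hg, h, hh, k, x, z, b, hPe, hrel, hl1, hl2, hQ⟩ := Top_dec (by omega) hP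
  obtain ⟨i, r, a, p, u, h1, h2, h3, ha, hp, hu, hge⟩ := jump_dec hv hg
  have hrg : rev g = rev u ++ rev (a ++ p) := by rw [hge, rev_append]
  have hgl : g.length = a.length + p.length + u.length := by
    rw [hge, List.length_append, List.length_append]
  refine ⟨i, r, T - i - r, h1, h2, h3, by omega, a, ha, p, hp, mz b (rev u), mz_Brd (Brd_rev hu), mz b h, mz_SSt hh,
    ?_, ?_, k, x, z, b, ?_, ?_, ?_⟩
  · have := hQ Q hD
    rw [hge, List.append_assoc] at this
    exact Dj_pref_left this
  · cases b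
    · rw [if_neg (by decide), hrg] at hrel
      exact Dj_pref_left hrel
    · rw [if_pos rfl, hrg] at hrel
      exact Dj_not (Dj_pref_right hrel)
  · rw [mz_mz, mz_mz, rev_rev, ← hge]
    exact hPe
  · rw [mz_length, mz_length, rev_length]
    omega
  · rw [mz_length, mz_length, rev_length]
    omega

/-- the word with the two half plane words of the cut at the leftmost lowest vertex -/
def RF (k : Fin 5) (c : Bool) (P Q : List Bool) : List Bool :=
  match k with
  | 0 => P
  | 1 => rev (P.drop 1) ++ [c]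
  | 2 => rev (P.drop 2) ++ [c]
  | 3 => rev (P.drop 2) ++ (true :: c :: Q.drop 1)
  | 4 => rev (Q.drop 1) ++ (false :: false :: P.drop 2)

lemma front_raw {m : ℕ} {t : List Bool} (hs : Saw Set.univ oo up t) (he : Ext m t) :
    ∃ P ∈ SSt m, ∃ Q ∈ SSt m, Dj P Q ∧ ∃ k c, t = RF k c P Q ∧ t.length ≤ P.length + Q.length ∧
      P.length + Q.length ≤ t.length + 1 := by
  rcases front_splitL hs he with h | ⟨R, hR, c, h1, h2, _⟩ | ⟨R, hR, c, h1, h2, _⟩ |
    ⟨P, hP, Q, hQ, hD, c, h1, h2, _⟩ | ⟨P, hP, Q, hQ, hD, h1, h2, _⟩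
  · refine ⟨t, h, [], nil_SSt m, Dj_nil_right _, 0, false, rfl, ?_, ?_⟩
    · simp
    · simp
  · refine ⟨R, hR, [], nil_SSt m, Dj_nil_right _, 1, c, h1, ?_, ?_⟩
    · rw [List.length_nil]
      omega
    · rw [List.length_nil]
      omega
  · refine ⟨R, hR, [], nil_SSt m, Dj_nil_right _, 2, c, h1, ?_, ?_⟩
    · rw [List.length_nil]
      omega
    · rw [List.length_nil]
      omega
  · exact ⟨P, hP, Q, hQ, hD, 3, c, h1, by omega, by omega⟩
  · exact ⟨P, hP, Q, hQ, hD, 4, false, h1, by omega, by omega⟩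

lemma Top_zero {P : List Bool} (h : Top 0 P) : P.length ≤ 1 := by
  rcases h with h | ⟨g, hg, c, rfl⟩
  · rw [HT_zero] at h
    rw [h]
    simp
  · rw [Brd_zero] at hg
    rw [hg]
    simp

/-- data of the cut: the taller half plane word P and the other one -/
def FD (T : ℕ) (t P Q : List Bool) : Prop :=
  Top T P ∧ Q ∈ SSt (T + 1) ∧ Dj P Q ∧
    (∃ k c s, t = if s = true then RF k c (Q.map not) (P.map not) else RF k c P Q) ∧
    t.length ≤ P.length + Q.length ∧ P.length + Q.length ≤ t.length + 1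

lemma front_dec {m : ℕ} {t : List Bool} (hs : Saw Set.univ oo up t) (he : Ext m t) :
    ∃ T ≤ m, (T = 0 → t.length ≤ 2) ∧ ∃ P Q, FD T t P Q := by
  obtain ⟨P, hP, Q, hQ, hD, k, c, ht, h1, h2⟩ := front_raw hs he
  obtain ⟨T1, hT1, hP1⟩ := Top_of hP
  obtain ⟨T2, hT2, hQ1⟩ := Top_of hQ
  rcases le_total T2 T1 with hle | hle
  · refine ⟨T1, hT1, ?_, P, Q, hP1, SSt_mono (by omega) (Top_SSt hQ1), hD, ⟨k, c, false, ?_⟩, h1, h2⟩
    · rintro rfl
      obtain rfl : T2 = 0 := by omega
      have := Top_zero hP1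
      have := Top_zero hQ1
      omega
    · rw [if_neg (by decide)]
      exact ht
  · refine ⟨T2, hT2, ?_, Q.map not, P.map not, Top_not hQ1, SSt_not (SSt_mono (by omega) (Top_SSt hP1)), Dj_not hD,
      ⟨k, c, true, ?_⟩, ?_, ?_⟩
    · rintro rfl
      obtain rfl : T1 = 0 := by omega
      have := Top_zero hP1
      have := Top_zero hQ1
      omega
    · rw [if_pos rfl, map_not_not, map_not_not]
      exact ht
    · rw [List.length_map, List.length_map]
      omega
    · rw [List.length_map, List.length_map]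
      omega

/-- codes of the rebuilding -/
abbrev Cod : Type := (Fin 5 × Bool × Bool) × (Fin 4 × Bool × Bool × Bool)

/-- the word rebuilt from the five pieces -/
def Rec (κ : Cod) (a Q p U H : List Bool) : List Bool :=
  let P := RT κ.2.1 κ.2.2.1 κ.2.2.2.1 κ.2.2.2.2 (a ++ p ++ rev (mz κ.2.2.2.2 U)) (mz κ.2.2.2.2 H)
  if κ.1.2.2 = true then RF κ.1.1 κ.1.2.1 (Q.map not) (P.map not) else RF κ.1.1 κ.1.2.1 P Q

lemma full_dec {T v : ℕ} (hv : v < T) {t P Q : List Bool} (h : FD T t P Q) :
    ∃ κ : Cod, ∃ i r u, i ≤ v ∧ v < i + r ∧ i + r ≤ T ∧ u ≤ T ∧ ∃ a ∈ Brd i, ∃ p ∈ Irr r, ∃ U ∈ Brd u, ∃ H ∈ SSt T,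
      Dj a Q ∧ Dj U H ∧ t = Rec κ a Q p U H ∧
      t.length ≤ a.length + Q.length + (p.length + (U.length + H.length)) + 1 ∧
      a.length + Q.length + (p.length + (U.length + H.length)) ≤ t.length + 2 := by
  obtain ⟨hP, hQ, hD, ⟨k, c, s, ht⟩, h1, h2⟩ := h
  obtain ⟨i, r, u, e1, e2, e3, e4, a, ha, p, hp, U, hU, H, hH, d1, d2, k', x, z, b, hPe, l1, l2⟩ := pair_dec hv hP hD
  refine ⟨((k, c, s), (k', x, z, b)), i, r, u, e1, e2, e3, e4, a, ha, p, hp, U, hU, H, hH, d1, d2, ?_, ?_, ?_⟩
  · show t = if s = true then RF k c (Q.map not) ((RT k' x z b (a ++ p ++ rev (mz b U)) (mz b H)).map not) else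
      RF k c (RT k' x z b (a ++ p ++ rev (mz b U)) (mz b H)) Q
    rw [← hPe]
    exact ht
  · omega
  · omega

end PU

end HexObs
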