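import Pool.Agent.BAR.WBd
import Pool.Agent.TightS.DefsS

/-!
PU72: weights of words and of pairs with a given number of letters (helper72, helper68, helper64).
The pointwise upper bound of the number of self-avoiding walks, board/PU72.
-/

set_option autoImplicit false

namespace HexObs

namespace PU

open Finset BAR TS

open scoped ENNReal

/-- critical weight of the words of A with n letters -/
noncomputable def gs (A : Set (List Bool)) (n : ℕ) : ℝ≥0∞ := gf {t | t ∈ A ∧ t.length = n}

/-- critical weight of the pairs with the relation R, n letters together -/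
noncomputable def gs2 (A B : Set (List Bool)) (R : List Bool → List Bool → Prop) (n : ℕ) : ℝ≥0∞ :=
  g2 A B fun s t => R s t ∧ s.length + t.length = n

/-- convolution -/
noncomputable def cv (f g : ℕ → ℝ≥0∞) (n : ℕ) : ℝ≥0∞ := ∑ p ∈ antidiagonal n, f p.1 * g p.2

/-- a bridge (left) of height at most d beside a half plane word of height at most d -/
noncomputable def PZ (d n : ℕ) : ℝ≥0∞ := ∑ u ∈ range (d + 1), gs2 (Brd u) (SSt d) Dj n

/-- irreducible bridges of height r, each with weight min (r, D) -/
noncomputable def JZ (D n : ℕ) : ℝ≥0∞ := ∑ r ∈ range (2 * D + 1), ((min r D : ℕ) : ℝ≥0∞) * gs (Irr r) n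

/-- jumps over the height k -/
def Jp (k : ℕ) : Set (List Bool) := {t | (k = 0 ∧ t = []) ∨ ∃ i, k < i ∧ t ∈ Irr i}

/-- disjoint pairs of bridges of heights r ≤ u ≤ d with a jump over u - r -/
noncomputable def GZ (d n : ℕ) : ℝ≥0∞ :=
  ∑ u ∈ range (d + 1), ∑ r ∈ range (u + 1), cv (gs2 (Brd r) (Brd u) Dj) (gs (Jp (u - r))) n

end PU

end HexObs
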