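import Pool.Agent.PU72.Ser
import Pool.Agent.BAR.Upper
import Pool.Agent.BAR1.KLow

/-!
PU72: masses at the critical point: the pairs with one jump, the walks without cut, the jumps.
-/

set_option autoImplicit false

namespace HexObs

open Complex Finset ENNReal

namespace PU

open BAR

namespace MassAux

lemma lg_pow {C ε : ℝ} (hC : 0 < C) (hε : 0 < ε) :
    ∃ K : ℝ, 0 < K ∧ ∀ m : ℕ, 1 ≤ m → lg (4 * m) ^ C ≤ K * (m : ℝ) ^ ε := by
  have hl2 : 0 < Real.log 2 := Real.log_pos (by norm_num)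
  obtain ⟨s, hs⟩ : ∃ s, s = ε / C := ⟨_, rfl⟩
  have hs0 : 0 < s := by rw [hs]; positivity
  obtain ⟨K, hK⟩ : ∃ K, K = 3 + 1 / (s * Real.log 2) := ⟨_, rfl⟩
  have hK0 : 0 < K := by rw [hK]; positivity
  refine ⟨K ^ C, by positivity, fun m hm => ?_⟩
  have hmR : (1 : ℝ) ≤ m := by exact_mod_cast hm
  have hm0 : (0 : ℝ) < m := by linarith
  have h1 : lg (4 * m) ≤ 3 + Real.log m / Real.log 2 := by
    unfold lg
    have h2 : (Nat.log 2 (4 * m) : ℝ) ≤ Real.logb 2 ((4 * m : ℕ) : ℝ) := Real.natLog_le_logb _ _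
    have h3 : Real.logb 2 ((4 * m : ℕ) : ℝ) = 2 + Real.log m / Real.log 2 := by
      unfold Real.logb
      push_cast
      rw [Real.log_mul (by norm_num) hm0.ne', add_div, show (4 : ℝ) = 2 ^ 2 by norm_num, Real.log_pow]
      congr 1
      push_cast
      field_simp
    rw [h3] at h2
    linarith
  have h4 : Real.log m ≤ (m : ℝ) ^ s / s := Real.log_le_rpow_div hm0.le hs0
  have h5 : 1 ≤ (m : ℝ) ^ s := Real.one_le_rpow hmR hs0.le
  have h6 : lg (4 * m) ≤ K * (m : ℝ) ^ s := by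
    refine h1.trans ?_
    have h7 : Real.log m / Real.log 2 ≤ (m : ℝ) ^ s / s / Real.log 2 := by gcongr
    rw [hK]
    have h8 : (3 + 1 / (s * Real.log 2)) * (m : ℝ) ^ s = 3 * (m : ℝ) ^ s + (m : ℝ) ^ s / s / Real.log 2 := by
      field_simp
    rw [h8]
    linarith
  have h9 : 0 ≤ lg (4 * m) := by linarith [lg_one (4 * m)]
  calc lg (4 * m) ^ C ≤ (K * (m : ℝ) ^ s) ^ C := Real.rpow_le_rpow h9 h6 hC.le
    _ = K ^ C * (m : ℝ) ^ ε := by
      rw [Real.mul_rpow hK0.le (by positivity), ← Real.rpow_mul hm0.le, hs, div_mul_cancel₀ _ hC.ne']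

lemma KK_le (k : ℕ) : KK' (k + 1) ≤ 1 / UU k := by
  rw [le_div_iff₀ (Num2Aux.UU_pos k)]
  have := UU_mul_KK k
  linarith

lemma gf_Jp (k : ℕ) : gf (Jp k) ≤ (if k = 0 then 1 else 0) + ENNReal.ofReal (KK' (k + 1)) := by
  classical
  have hsub : Jp k ⊆ {t | k = 0 ∧ t = []} ∪ ⋃ i : ℕ, {t | k < i ∧ t ∈ Irr i} := by
    rintro t (h | ⟨i, h1, h2⟩)
    · exact Or.inl h
    · exact Or.inr (Set.mem_iUnion.2 ⟨i, h1, h2⟩)
  have hun : gf (⋃ i : ℕ, {t | k < i ∧ t ∈ Irr i}) ≤ ∑' i : ℕ, gf {t | k < i ∧ t ∈ Irr i} :=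
    ENNReal.tsum_iUnion_le_tsum wE fun i : ℕ => {t : List Bool | k < i ∧ t ∈ Irr i}
  refine (gf_mono hsub).trans ((gf_union_le _ _).trans (add_le_add ?_ (hun.trans ?_)))
  · split_ifs with h
    · have h1 : gf {t : List Bool | k = 0 ∧ t = []} ≤ gf {([] : List Bool)} := gf_mono (by
        rintro t ⟨_, h2⟩
        exact h2)
      refine h1.trans (le_of_eq ?_)
      unfold gf
      rw [tsum_singleton]
      unfold wE
      simp
    · have e : {t : List Bool | k = 0 ∧ t = []} = ∅ := by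
        ext t
        simp [h]
      rw [e]
      unfold gf
      simp
  · refine ENNReal.tsum_le_of_sum_range_le fun n => ?_
    have h1 : ∀ i : ℕ, gf {t | k < i ∧ t ∈ Irr i} ≤ if k < i then kap' i else 0 := by
      intro i
      split_ifs with h
      · exact gf_mono fun t ht => ht.2
      · have e : {t : List Bool | k < i ∧ t ∈ Irr i} = ∅ := by
          ext t
          simp [h]
        rw [e]
        unfold gf
        simp
    refine (Finset.sum_le_sum fun i _ => h1 i).trans ?_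
    rw [← Finset.sum_filter]
    refine (Finset.sum_le_sum_of_subset (t := Finset.Ioc k n) ?_).trans (sum_kap_le k n)
    intro i hi
    rw [Finset.mem_filter, Finset.mem_range] at hi
    rw [Finset.mem_Ioc]
    omega

lemma gf_Jp_le (k : ℕ) : gf (Jp k) ≤ ENNReal.ofReal (2 / UU k) := by
  refine (gf_Jp k).trans ?_
  have h1 := KK_le k
  have hU := Num2Aux.UU_pos k
  split_ifs with h
  · subst h
    have e : UU 0 = 1 := by
      unfold UU
      rw [Finset.sum_range_one]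
      exact Num2Aux.zero
    rw [e] at h1 ⊢
    rw [← ENNReal.ofReal_one, ← ENNReal.ofReal_add (by norm_num) (KK_nonneg _)]
    apply ENNReal.ofReal_le_ofReal
    linarith
  · rw [zero_add]
    apply ENNReal.ofReal_le_ofReal
    refine h1.trans ?_
    apply div_le_div_of_nonneg_right _ hU.le
    norm_num

end MassAux

open MassAux

/-- (M1) the pairs of disjoint bridges with one jump beyond the higher one -/
theorem massG : ∃ C : ℝ, 1 ≤ C ∧ ∀ D : ℕ, ∑' n, GZ D n ≤ ENNReal.ofReal (C * lg D ^ C) := by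
  obtain ⟨C, hC, h⟩ := gg_bound
  have hU : ∀ n, 0 < UU n := Num2Aux.UU_pos
  refine ⟨120 * C + 2, by linarith, ?_⟩
  intro D
  have e0 : ∑' n, GZ D n = ∑ u ∈ Finset.range (D + 1), ∑ r ∈ Finset.range (u + 1), gg r u * gf (Jp (u - r)) := by
    unfold GZ
    rw [Summable.tsum_finsetSum fun i _ => ENNReal.summable]
    refine Finset.sum_congr rfl fun u _ => ?_
    rw [Summable.tsum_finsetSum fun i _ => ENNReal.summable]
    refine Finset.sum_congr rfl fun r _ => ?_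
    rw [tsum_cv, tsum_gs2, tsum_gs, gg_eq_g2]
  rw [e0]
  have hlD := lg_one D
  have hl0 : 0 < lg D := by linarith
  set K : ℝ := C * lg D ^ C with hK
  have hK0 : 0 ≤ K := by positivity
  have hterm : ∀ u ∈ Finset.range (D + 1), ∀ r ∈ Finset.range (u + 1),
      gg r u * gf (Jp (u - r)) ≤
        ENNReal.ofReal ((2 * K * uu u) * (uu r / UU r * (1 / UU (u - r)))) := by
    intro u hu r hr
    rw [Finset.mem_range] at hu hr
    have h1 := gf_Jp_le (u - r)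
    have h2 := uu_div_nonneg r
    have h3 := Num2Aux.nonneg u
    have h4 : C * lg u ^ C ≤ K := by
      refine mul_le_mul_of_nonneg_left ?_ (by linarith)
      exact Real.rpow_le_rpow (le_trans zero_le_one (lg_one u)) (lg_mono (by omega)) (by linarith)
    refine (mul_le_mul' (h r u (by omega)) h1).trans ?_
    rw [← ENNReal.ofReal_mul (by have := lg_one u; positivity)]
    apply ENNReal.ofReal_le_ofReal
    have h5 : 0 ≤ 2 / UU (u - r) := by have := hU (u - r); positivity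
    calc C * lg u ^ C * (uu u * (uu r / UU r)) * (2 / UU (u - r))
        = (C * lg u ^ C) * ((uu u * (uu r / UU r)) * (2 / UU (u - r))) := by ring
      _ ≤ K * ((uu u * (uu r / UU r)) * (2 / UU (u - r))) :=
          mul_le_mul_of_nonneg_right h4 (by positivity)
      _ = _ := by ring
  have hnn : ∀ u r : ℕ, 0 ≤ (2 * K * uu u) * (uu r / UU r * (1 / UU (u - r))) := by
    intro u r
    have h2 := uu_div_nonneg r
    have h3 := Num2Aux.nonneg u
    have h5 := hU (u - r)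
    positivity
  refine (Finset.sum_le_sum fun u hu => Finset.sum_le_sum fun r hr => hterm u hu r hr).trans ?_
  have e1 : ∀ u ∈ Finset.range (D + 1), ∑ r ∈ Finset.range (u + 1),
      ENNReal.ofReal ((2 * K * uu u) * (uu r / UU r * (1 / UU (u - r)))) =
      ENNReal.ofReal (∑ r ∈ Finset.range (u + 1), (2 * K * uu u) * (uu r / UU r * (1 / UU (u - r)))) := fun u _ =>
    (ENNReal.ofReal_sum_of_nonneg fun r _ => hnn u r).symm
  rw [Finset.sum_congr rfl e1, ← ENNReal.ofReal_sum_of_nonneg fun u _ => Finset.sum_nonneg fun r _ => hnn u r]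
  apply ENNReal.ofReal_le_ofReal
  have h5 : ∀ u ∈ Finset.range (D + 1), ∑ r ∈ Finset.range (u + 1), (2 * K * uu u) * (uu r / UU r * (1 / UU (u - r))) ≤
      (40 * K * lg D) * (uu u / UU u) := by
    intro u hu
    rw [Finset.mem_range] at hu
    rw [← Finset.mul_sum]
    have h6 := conv_sum u
    have h7 := Num2Aux.nonneg u
    have h8 : lg u ≤ lg D := lg_mono (by omega)
    have h9 := hU u
    calc (2 * K * uu u) * ∑ r ∈ Finset.range (u + 1), uu r / UU r * (1 / UU (u - r))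
        ≤ (2 * K * uu u) * (20 * lg u / UU u) := mul_le_mul_of_nonneg_left h6 (by positivity)
      _ = (40 * K * lg u) * (uu u / UU u) := by ring
      _ ≤ (40 * K * lg D) * (uu u / UU u) := by
          refine mul_le_mul_of_nonneg_right ?_ (uu_div_nonneg u)
          exact mul_le_mul_of_nonneg_left h8 (by positivity)
  refine (Finset.sum_le_sum h5).trans ?_
  rw [← Finset.mul_sum]
  have h6 := sum_div_le D
  calc (40 * K * lg D) * ∑ u ∈ Finset.range (D + 1), uu u / UU u ≤ (40 * K * lg D) * (3 * lg D) :=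
        mul_le_mul_of_nonneg_left h6 (by positivity)
    _ = 120 * C * (lg D ^ C * (lg D * lg D)) := by rw [hK]; ring
    _ ≤ (120 * C + 2) * lg D ^ (120 * C + 2) := by
        have e : lg D ^ C * (lg D * lg D) = lg D ^ (C + 2) := by
          rw [Real.rpow_add hl0, ← sq]
          norm_num
        rw [e]
        exact mul_le_mul (by linarith) (Real.rpow_le_rpow_of_exponent_le hlD (by linarith))
          (Real.rpow_nonneg hl0.le _) (by linarith)

/-- (M2) the walks without cut -/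
theorem massNA (d : ℕ) : gf (NA d) ≤ ENNReal.ofReal (1 / UU d) * HH (2 * d) := by
  have hU : 0 < UU d := Num2Aux.UU_pos d
  have h4 := UU_NA_le d
  have h5 : ENNReal.ofReal (1 / UU d) * (ENNReal.ofReal (UU d) * gf (NA d)) = gf (NA d) := by
    rw [← mul_assoc, ← ENNReal.ofReal_mul (by positivity), one_div, inv_mul_cancel₀ hU.ne',
      ENNReal.ofReal_one, one_mul]
  rw [← h5]
  exact mul_le_mul' le_rfl h4

/-- the jumps, weighted by the number of the levels of [0, D) below them -/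
theorem massJ0 : ∃ C : ℝ, 1 ≤ C ∧ ∀ D : ℕ, 1 ≤ D → ∀ R : ℕ,
    ∑ r ∈ Finset.range R, (min r D : ℕ) * kap' r ≤ ENNReal.ofReal (C * lg D * (D / UU D)) := by
  have hU : ∀ n, 0 < UU n := Num2Aux.UU_pos
  refine ⟨40, by norm_num, ?_⟩
  intro D hD R
  have hlD := lg_one D
  have hDr : (1 : ℝ) ≤ D := by exact_mod_cast hD
  have e0 : ∀ r : ℕ, ((min r D : ℕ) : ℝ≥0∞) * kap' r = ENNReal.ofReal ((min r D : ℕ) * kk r) := by
    intro r
    rw [kap_eq, ENNReal.ofReal_mul (Nat.cast_nonneg _), ENNReal.ofReal_natCast]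
  rw [Finset.sum_congr rfl fun r _ => e0 r, ← ENNReal.ofReal_sum_of_nonneg fun r _ =>
    mul_nonneg (Nat.cast_nonneg _) (kk_nonneg' r)]
  apply ENNReal.ofReal_le_ofReal
  -- split at D
  have h1 : ∑ r ∈ Finset.range R, ((min r D : ℕ) : ℝ) * kk r ≤
      ∑ r ∈ Finset.range D, (r : ℝ) * kk r + D * ∑ r ∈ Finset.Ico D (max D R), kk r := by
    have h2 : ∑ r ∈ Finset.range R, ((min r D : ℕ) : ℝ) * kk r ≤
        ∑ r ∈ Finset.range (max D R), ((min r D : ℕ) : ℝ) * kk r :=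
      Finset.sum_le_sum_of_subset_of_nonneg (Finset.range_subset_range.2 (le_max_right _ _))
        fun r _ _ => mul_nonneg (Nat.cast_nonneg _) (kk_nonneg' r)
    refine h2.trans (le_of_eq ?_)
    rw [Finset.range_eq_Ico, ← Finset.sum_Ico_consecutive _ (Nat.zero_le D) (le_max_left D R)]
    congr 1
    · refine Finset.sum_congr (by ext x; simp) fun r hr => ?_
      rw [Finset.mem_range] at hr
      rw [min_eq_left hr.le]
    · rw [Finset.mul_sum]
      refine Finset.sum_congr rfl fun r hr => ?_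
      rw [Finset.mem_Ico] at hr
      rw [min_eq_right hr.1]
  have h3 := Dyadic.mom_le (u := uu) (U := UU) (lam := kk) (C := 2) Num2Aux.zero Num2Aux.nonneg
    (fun m n h => Num2Aux.anti h) (fun n => rfl) (by norm_num) tail_kk (q := D)
  have h4 := tail_kk D (max D R) hD
  have h5 : 1 + Real.log ((D : ℝ) + 1) ≤ 3 * lg D := by
    have h6 : ((D : ℝ) + 1) ≤ 2 ^ (Nat.log 2 D + 1) := by
      have h := Nat.lt_pow_succ_log_self (b := 2) (by norm_num) D
      exact_mod_cast h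
    have h7 : Real.log ((D : ℝ) + 1) ≤ ((Nat.log 2 D + 1 : ℕ) : ℝ) * Real.log 2 := by
      rw [← Real.log_pow]
      exact Real.log_le_log (by positivity) h6
    have h8 : Real.log 2 ≤ 1 := by
      have := Real.log_two_lt_d9
      linarith
    have h9 : ((Nat.log 2 D + 1 : ℕ) : ℝ) * Real.log 2 ≤ ((Nat.log 2 D + 1 : ℕ) : ℝ) * 1 :=
      mul_le_mul_of_nonneg_left h8 (Nat.cast_nonneg _)
    unfold lg
    push_cast at h7 h9 ⊢
    have : (0 : ℝ) ≤ (Nat.log 2 D : ℝ) := Nat.cast_nonneg _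
    linarith
  have hUD := hU D
  have h10 : ((D : ℝ) + 1) * (1 + Real.log ((D : ℝ) + 1)) / UU D ≤ 6 * lg D * (D / UU D) := by
    rw [← mul_div_assoc]
    apply div_le_div_of_nonneg_right _ hUD.le
    have h11 : 0 ≤ 1 + Real.log ((D : ℝ) + 1) := by
      have := Real.log_nonneg (show (1 : ℝ) ≤ (D : ℝ) + 1 by linarith)
      linarith
    nlinarith
  calc ∑ r ∈ Finset.range R, ((min r D : ℕ) : ℝ) * kk r
      ≤ ∑ r ∈ Finset.range D, (r : ℝ) * kk r + D * ∑ r ∈ Finset.Ico D (max D R), kk r := h1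
    _ ≤ 2 * (6 * lg D * (D / UU D)) + D * (2 / UU D) := by
        refine add_le_add (h3.trans ?_) (mul_le_mul_of_nonneg_left h4 (by linarith))
        exact mul_le_mul_of_nonneg_left h10 (by norm_num)
    _ = (12 * lg D + 2) * (D / UU D) := by ring
    _ ≤ 40 * lg D * (D / UU D) := mul_le_mul_of_nonneg_right (by linarith) (by positivity)

/-- (M3) the jumps -/
theorem massJ : ∃ C : ℝ, 1 ≤ C ∧ ∀ D : ℕ, 1 ≤ D →
    ∑' n, JZ D n ≤ ENNReal.ofReal (C * lg D * (D : ℝ) ^ (1 / 4 : ℝ)) := by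
  obtain ⟨C, hC, h⟩ := massJ0
  obtain ⟨K, hK, hU⟩ := UU_low
  refine ⟨C * K, by nlinarith, ?_⟩
  intro D hD
  have hlD := lg_one D
  have hDr : (1 : ℝ) ≤ D := by exact_mod_cast hD
  have hD0 : (0 : ℝ) < D := by linarith
  have hUD := Num2Aux.UU_pos D
  have e0 : ∑' n, JZ D n = ∑ r ∈ Finset.range (2 * D + 1), ((min r D : ℕ) : ℝ≥0∞) * kap' r := by
    unfold JZ
    rw [Summable.tsum_finsetSum fun i _ => ENNReal.summable]
    refine Finset.sum_congr rfl fun r _ => ?_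
    rw [ENNReal.tsum_mul_left, tsum_gs]
    rfl
  rw [e0]
  refine (h D hD (2 * D + 1)).trans (ENNReal.ofReal_le_ofReal ?_)
  have h1 : (D : ℝ) ^ (3 / 4 : ℝ) ≤ K * UU D :=
    (Real.rpow_le_rpow hD0.le (by linarith) (by norm_num)).trans (hU D)
  have h2 : (D : ℝ) ^ (1 / 4 : ℝ) * (D : ℝ) ^ (3 / 4 : ℝ) = D := by
    rw [← Real.rpow_add hD0]
    norm_num
  have h3 : (D : ℝ) / UU D ≤ K * (D : ℝ) ^ (1 / 4 : ℝ) := by
    rw [div_le_iff₀ hUD]
    have h4 : 0 ≤ (D : ℝ) ^ (1 / 4 : ℝ) := by positivity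
    calc (D : ℝ) = (D : ℝ) ^ (1 / 4 : ℝ) * (D : ℝ) ^ (3 / 4 : ℝ) := h2.symm
      _ ≤ (D : ℝ) ^ (1 / 4 : ℝ) * (K * UU D) := mul_le_mul_of_nonneg_left h1 h4
      _ = _ := by ring
  calc C * lg D * (D / UU D) ≤ C * lg D * (K * (D : ℝ) ^ (1 / 4 : ℝ)) :=
        mul_le_mul_of_nonneg_left h3 (by positivity)
    _ = _ := by ring

/-- (M4) all scales -/
theorem massAll {h : ℝ} (H : ∀ ε : ℝ, 0 < ε → ∃ A : ℝ, ∀ n : ℕ, 1 ≤ n →
    HH n ≤ ENNReal.ofReal (A * (n : ℝ) ^ (h + ε))) : ∀ ε : ℝ, 0 < ε → ∃ C : ℝ, 0 < C ∧ ∀ m : ℕ, 1 ≤ m →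
    ∑ j ∈ Finset.range (Nat.log 2 m + 1), ((2 : ℝ≥0∞) ^ j)⁻¹ * ((∑' n, JZ (2 ^ j) n) *
      ((∑' n, GZ (2 ^ (j + 2)) n) * gf (NA (2 ^ (j + 2)))) ^ 2) ≤
      ENNReal.ofReal (C * (m : ℝ) ^ (max (2 * h - 9 / 4) 0 + ε)) := by
  intro ε hε
  obtain ⟨CJ, hCJ, hJ⟩ := massJ
  obtain ⟨CG, hCG, hG⟩ := massG
  obtain ⟨K, hK, hU⟩ := UU_low
  obtain ⟨δ, hδ⟩ : ∃ δ, δ = ε / 3 := ⟨_, rfl⟩
  have hδ0 : 0 < δ := by rw [hδ]; positivity
  obtain ⟨A0, hA0⟩ := H δ hδ0
  obtain ⟨A, hA⟩ : ∃ A, A = max A0 1 := ⟨_, rfl⟩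
  have hA1 : 1 ≤ A := by rw [hA]; exact le_max_right _ _
  have hHH : ∀ n : ℕ, 1 ≤ n → HH n ≤ ENNReal.ofReal (A * (n : ℝ) ^ (h + δ)) := fun n hn =>
    (hA0 n hn).trans (ENNReal.ofReal_le_ofReal (mul_le_mul_of_nonneg_right (by rw [hA]; exact le_max_left _ _)
      (by positivity)))
  obtain ⟨KL, hKL, hL⟩ := lg_pow (C := 2 * CG + 2) (by linarith) hδ0
  obtain ⟨CN, hCN⟩ : ∃ CN, CN = K * A * (8 : ℝ) ^ (h + δ) := ⟨_, rfl⟩
  have hCN0 : 0 < CN := by rw [hCN]; positivity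
  obtain ⟨a, ha⟩ : ∃ a, a = max (2 * h - 9 / 4) 0 := ⟨_, rfl⟩
  have ha0 : 0 ≤ a := by rw [ha]; exact le_max_right _ _
  have ha1 : 2 * h - 9 / 4 ≤ a := by rw [ha]; exact le_max_left _ _
  have ha2 : 0 ≤ a := by rw [ha]; exact le_max_right _ _
  rw [← ha]
  refine ⟨CJ * CG ^ 2 * CN ^ 2 * KL, by positivity, ?_⟩
  intro m hm
  have hmR : (1 : ℝ) ≤ m := by exact_mod_cast hm
  have hm0 : (0 : ℝ) < m := by linarith
  set L : ℝ := lg (4 * m) with hLdef
  have hL1 : 1 ≤ L := lg_one _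
  have hL0 : 0 < L := by linarith
  -- one scale
  have hterm : ∀ j ∈ Finset.range (Nat.log 2 m + 1), ((2 : ℝ≥0∞) ^ j)⁻¹ * ((∑' n, JZ (2 ^ j) n) *
      ((∑' n, GZ (2 ^ (j + 2)) n) * gf (NA (2 ^ (j + 2)))) ^ 2) ≤
      ENNReal.ofReal (CJ * CG ^ 2 * CN ^ 2 * L ^ (2 * CG + 1) * (m : ℝ) ^ (a + 2 * δ)) := by
    intro j hj
    rw [Finset.mem_range] at hj
    obtain ⟨D, hD⟩ : ∃ D : ℕ, D = 2 ^ j := ⟨_, rfl⟩
    have hD1 : 1 ≤ D := by rw [hD]; exact Nat.one_le_two_pow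
    have hDm : D ≤ m := by
      rw [hD]
      exact (Nat.pow_le_pow_right (by norm_num) (by omega)).trans (Nat.pow_log_le_self 2 (by omega))
    have hDr : (1 : ℝ) ≤ D := by exact_mod_cast hD1
    have hD0 : (0 : ℝ) < D := by linarith
    have hDmr : (D : ℝ) ≤ m := by exact_mod_cast hDm
    have e4 : 2 ^ (j + 2) = 4 * D := by rw [hD]; ring
    have einv : ((2 : ℝ≥0∞) ^ j)⁻¹ = ENNReal.ofReal ((D : ℝ)⁻¹) := by
      rw [ENNReal.ofReal_inv_of_pos hD0, hD]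
      congr 1
      push_cast
      rw [ENNReal.ofReal_pow (by norm_num)]
      norm_num
    rw [e4, ← hD, einv]
    have j1 : ∑' n, JZ D n ≤ ENNReal.ofReal (CJ * L * (D : ℝ) ^ (1 / 4 : ℝ)) := by
      refine (hJ D hD1).trans (ENNReal.ofReal_le_ofReal ?_)
      refine mul_le_mul_of_nonneg_right ?_ (by positivity)
      exact mul_le_mul_of_nonneg_left (lg_mono (by omega)) (by linarith)
    have j2 : ∑' n, GZ (4 * D) n ≤ ENNReal.ofReal (CG * L ^ CG) := by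
      refine (hG (4 * D)).trans (ENNReal.ofReal_le_ofReal ?_)
      refine mul_le_mul_of_nonneg_left ?_ (by linarith)
      exact Real.rpow_le_rpow (le_trans zero_le_one (lg_one _)) (lg_mono (by omega)) (by linarith)
    have j3 : gf (NA (4 * D)) ≤ ENNReal.ofReal (CN * (D : ℝ) ^ (h - 3 / 4 + δ)) := by
      refine (massNA (4 * D)).trans ?_
      have h1 := hHH (2 * (4 * D)) (by omega)
      have hU4 := Num2Aux.UU_pos (4 * D)
      refine (mul_le_mul' le_rfl h1).trans ?_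
      rw [← ENNReal.ofReal_mul (by positivity)]
      apply ENNReal.ofReal_le_ofReal
      have h2 : (D : ℝ) ^ (3 / 4 : ℝ) ≤ K * UU (4 * D) := by
        refine (Real.rpow_le_rpow hD0.le ?_ (by norm_num)).trans (hU (4 * D))
        push_cast
        linarith
      have h3 : 1 / UU (4 * D) ≤ K * (D : ℝ) ^ (-(3 / 4) : ℝ) := by
        rw [div_le_iff₀ hU4]
        have h4 : (D : ℝ) ^ (-(3 / 4) : ℝ) * (D : ℝ) ^ (3 / 4 : ℝ) = 1 := by
          rw [← Real.rpow_add hD0]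
          norm_num
        calc (1 : ℝ) = (D : ℝ) ^ (-(3 / 4) : ℝ) * (D : ℝ) ^ (3 / 4 : ℝ) := h4.symm
          _ ≤ (D : ℝ) ^ (-(3 / 4) : ℝ) * (K * UU (4 * D)) := mul_le_mul_of_nonneg_left h2 (by positivity)
          _ = _ := by ring
      have h5 : ((2 * (4 * D) : ℕ) : ℝ) ^ (h + δ) = (8 : ℝ) ^ (h + δ) * (D : ℝ) ^ (h + δ) := by
        rw [← Real.mul_rpow (by norm_num) hD0.le]
        congr 1
        push_cast
        ring
      rw [h5]
      calc 1 / UU (4 * D) * (A * ((8 : ℝ) ^ (h + δ) * (D : ℝ) ^ (h + δ)))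
          ≤ (K * (D : ℝ) ^ (-(3 / 4) : ℝ)) * (A * ((8 : ℝ) ^ (h + δ) * (D : ℝ) ^ (h + δ))) :=
            mul_le_mul_of_nonneg_right h3 (by positivity)
        _ = CN * ((D : ℝ) ^ (-(3 / 4) : ℝ) * (D : ℝ) ^ (h + δ)) := by rw [hCN]; ring
        _ = CN * (D : ℝ) ^ (h - 3 / 4 + δ) := by
            rw [← Real.rpow_add hD0]
            congr 2
            ring
    calc ENNReal.ofReal ((D : ℝ)⁻¹) * ((∑' n, JZ D n) * ((∑' n, GZ (4 * D) n) * gf (NA (4 * D))) ^ 2)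
        = ENNReal.ofReal ((D : ℝ)⁻¹) * ((∑' n, JZ D n) * (∑' n, GZ (4 * D) n) ^ 2 * (gf (NA (4 * D))) ^ 2) := by
          rw [mul_pow, mul_assoc (∑' n, JZ D n)]
      _ ≤ ENNReal.ofReal ((D : ℝ)⁻¹) * (ENNReal.ofReal (CJ * L * (D : ℝ) ^ (1 / 4 : ℝ)) *
          (ENNReal.ofReal (CG * L ^ CG)) ^ 2 * (ENNReal.ofReal (CN * (D : ℝ) ^ (h - 3 / 4 + δ))) ^ 2) :=
          mul_le_mul' le_rfl (mul_le_mul' (mul_le_mul' j1 (pow_le_pow_left' j2 2)) (pow_le_pow_left' j3 2))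
      _ = ENNReal.ofReal ((D : ℝ)⁻¹ * (CJ * L * (D : ℝ) ^ (1 / 4 : ℝ) * (CG * L ^ CG) ^ 2 *
          (CN * (D : ℝ) ^ (h - 3 / 4 + δ)) ^ 2)) := by
          have p1 : 0 ≤ CJ * L * (D : ℝ) ^ (1 / 4 : ℝ) := by positivity
          have p2 : 0 ≤ CG * L ^ CG := by positivity
          have p3 : 0 ≤ CN * (D : ℝ) ^ (h - 3 / 4 + δ) := by positivity
          have p4 : 0 ≤ (D : ℝ)⁻¹ := by positivity
          rw [← ENNReal.ofReal_pow p2, ← ENNReal.ofReal_pow p3, ← ENNReal.ofReal_mul p1,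
            ← ENNReal.ofReal_mul (mul_nonneg p1 (sq_nonneg _)), ← ENNReal.ofReal_mul p4]
      _ ≤ _ := by
          apply ENNReal.ofReal_le_ofReal
          have e1 : (D : ℝ)⁻¹ * ((D : ℝ) ^ (1 / 4 : ℝ) * ((D : ℝ) ^ (h - 3 / 4 + δ)) ^ 2) =
              (D : ℝ) ^ (2 * h - 9 / 4 + 2 * δ) := by
            rw [← Real.rpow_natCast ((D : ℝ) ^ (h - 3 / 4 + δ)) 2, ← Real.rpow_mul hD0.le, ← Real.rpow_neg_one,
              ← Real.rpow_add hD0, ← Real.rpow_add hD0]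
            congr 1
            push_cast
            ring
          have e2 : L * (L ^ CG) ^ 2 = L ^ (2 * CG + 1) := by
            rw [← Real.rpow_natCast (L ^ CG) 2, ← Real.rpow_mul hL0.le]
            nth_rewrite 1 [← Real.rpow_one L]
            rw [← Real.rpow_add hL0]
            congr 1
            push_cast
            ring
          have e3 : (D : ℝ) ^ (2 * h - 9 / 4 + 2 * δ) ≤ (m : ℝ) ^ (a + 2 * δ) :=
            (Real.rpow_le_rpow_of_exponent_le hDr (by linarith)).trans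
              (Real.rpow_le_rpow hD0.le hDmr (by linarith))
          calc (D : ℝ)⁻¹ * (CJ * L * (D : ℝ) ^ (1 / 4 : ℝ) * (CG * L ^ CG) ^ 2 *
                (CN * (D : ℝ) ^ (h - 3 / 4 + δ)) ^ 2)
              = CJ * CG ^ 2 * CN ^ 2 * (L * (L ^ CG) ^ 2) *
                ((D : ℝ)⁻¹ * ((D : ℝ) ^ (1 / 4 : ℝ) * ((D : ℝ) ^ (h - 3 / 4 + δ)) ^ 2)) := by ring
            _ = CJ * CG ^ 2 * CN ^ 2 * L ^ (2 * CG + 1) * (D : ℝ) ^ (2 * h - 9 / 4 + 2 * δ) := by
                rw [e1, e2]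
            _ ≤ _ := mul_le_mul_of_nonneg_left e3 (by positivity)
  refine (Finset.sum_le_sum hterm).trans ?_
  rw [Finset.sum_const, Finset.card_range, nsmul_eq_mul, ← ENNReal.ofReal_natCast,
    ← ENNReal.ofReal_mul (Nat.cast_nonneg _)]
  apply ENNReal.ofReal_le_ofReal
  have h1 : ((Nat.log 2 m + 1 : ℕ) : ℝ) ≤ L := by
    have h2 : lg m ≤ L := lg_mono (by omega)
    unfold lg at h2
    push_cast
    linarith
  have h2 : L * L ^ (2 * CG + 1) = L ^ (2 * CG + 2) := by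
    nth_rewrite 1 [← Real.rpow_one L]
    rw [← Real.rpow_add hL0]
    congr 1
    ring
  calc ((Nat.log 2 m + 1 : ℕ) : ℝ) * (CJ * CG ^ 2 * CN ^ 2 * L ^ (2 * CG + 1) * (m : ℝ) ^ (a + 2 * δ))
      ≤ L * (CJ * CG ^ 2 * CN ^ 2 * L ^ (2 * CG + 1) * (m : ℝ) ^ (a + 2 * δ)) :=
        mul_le_mul_of_nonneg_right h1 (by positivity)
    _ = CJ * CG ^ 2 * CN ^ 2 * (L * L ^ (2 * CG + 1)) * (m : ℝ) ^ (a + 2 * δ) := by ring
    _ = CJ * CG ^ 2 * CN ^ 2 * L ^ (2 * CG + 2) * (m : ℝ) ^ (a + 2 * δ) := by rw [h2]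
    _ ≤ CJ * CG ^ 2 * CN ^ 2 * (KL * (m : ℝ) ^ δ) * (m : ℝ) ^ (a + 2 * δ) := by
        refine mul_le_mul_of_nonneg_right ?_ (by positivity)
        exact mul_le_mul_of_nonneg_left (hL m hm) (by positivity)
    _ = CJ * CG ^ 2 * CN ^ 2 * KL * ((m : ℝ) ^ δ * (m : ℝ) ^ (a + 2 * δ)) := by ring
    _ = CJ * CG ^ 2 * CN ^ 2 * KL * (m : ℝ) ^ (a + ε) := by
        rw [← Real.rpow_add hm0]
        congr 2
        rw [hδ]
        ring

/-- (M4) all scales, h = 61 / 48 (the hypothesis is BAR.HUp (61 / 48)) -/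
theorem massMain (H : ∀ ε : ℝ, 0 < ε → ∃ A : ℝ, ∀ n : ℕ, 1 ≤ n →
    HH n ≤ ENNReal.ofReal (A * (n : ℝ) ^ (61 / 48 + ε))) : ∀ ε : ℝ, 0 < ε → ∃ C : ℝ, ∀ m : ℕ, 1 ≤ m →
    ∑ j ∈ Finset.range (Nat.log 2 m + 1), ((2 : ℝ≥0∞) ^ j)⁻¹ * ((∑' n, JZ (2 ^ j) n) *
      ((∑' n, GZ (2 ^ (j + 2)) n) * gf (NA (2 ^ (j + 2)))) ^ 2) ≤
      ENNReal.ofReal (C * (m : ℝ) ^ (7 / 24 + ε)) := by
  intro ε hε
  obtain ⟨C, -, h⟩ := massAll (h := 61 / 48) H ε hε
  refine ⟨C, fun m hm => ?_⟩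
  have e : max (2 * (61 / 48 : ℝ) - 9 / 4) 0 = 7 / 24 := by norm_num
  have h1 := h m hm
  rwa [e] at h1

end PU

end HexObs
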