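import Pool.Agent.PU72.Main
import Pool.Agent.PU72.Mass
import Pool.Agent.BAR.GammaS
import Pool.Agent.NUCR.Target
import Pool.Agent.NUGC.LegAll

/-!
PU72: the number of self-avoiding walks with exactly n steps on the honeycomb lattice, upper bound, no hypothesis.
-/

set_option autoImplicit false

namespace HexObs

namespace PU

/-- the sum of the masses -/
theorem massP : MassP := massMain _root_.NUGC.hUp

/-- **a n ≤ C n ^ (11 / 32 + ε) μ ^ n for every n** -/
theorem aB_le {ε : ℝ} (hε : 0 < ε) : ∃ C : ℝ, 0 < C ∧ ∀ n : ℕ, 1 ≤ n →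
    (aB n : ℝ) ≤ C * (n : ℝ) ^ (11 / 32 + ε) * muB ^ n := by
  have hU := _root_.NUI.numUp_of_target _root_.NUCR.target
  have hlw := Pool.Agent.NUF.longWalks_third _root_.NUCR.nfLow
  obtain ⟨h1, -, h2, -, -⟩ := BrL.bridges_letters
    (fun _ ha' => Pool.Agent.NUF.meanLen_of_ZZ (Pool.Agent.NUF.zzUp_of hU) ha') hlw
  exact pointwise_up massP h2 h1 hlw hε

end PU

end HexObs
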