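import Pool.Agent.PU72.Ser

/-!
PU72: the pair lemma. A bridge beside a half plane word: a FREE bridge splits off.

`PZ d n ≤ 2 * cv (GZ d) (cv (gs BU) (gs (NA d))) n`.
-/

set_option autoImplicit false

namespace HexObs

namespace PU

open Finset BAR TS

open scoped ENNReal

/-- a half plane word is a bridge followed by a word without cut -/
lemma all_cut {d : ℕ} {w : List Bool} (hw : w ∈ SSt d) : ∃ c ∈ BU, ∃ A ∈ NA d, w = c ++ A := by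
  obtain ⟨r, hr, c, hc, A, hA, h⟩ := last_cut hw d
  refine ⟨c, ⟨r, hc⟩, A, ⟨hA.1, fun j hj hcut => ?_⟩, h⟩
  obtain ⟨c2, s2, hc2, hs2, h2⟩ := hcut
  have h3 : (c ++ c2) ++ s2 ∈ SSt d := by
    rw [List.append_assoc, ← h2, ← h]
    exact hw
  have h4 := Brd_height_le (Brd_append hc hc2) h3
  exact hA.2 j hj (by omega) ⟨c2, s2, hc2, hs2, h2⟩

/-- a half plane word at the height u -/
lemma tri {d : ℕ} {w : List Bool} (hw : w ∈ SSt d) (u : ℕ) :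
    ∃ r, r ≤ u ∧ ∃ c ∈ Brd r, ∃ s, w = c ++ s ∧
      ((∃ i ∈ Jp (u - r), ∃ c' ∈ BU, ∃ A ∈ NA d, s = i ++ (c' ++ A)) ∨ s ∈ NA d) := by
  obtain ⟨r, hr, c, hc, s, hs, h⟩ := last_cut hw u
  refine ⟨r, hr, c, hc, s, h, ?_⟩
  by_cases hex : ∃ j, 1 ≤ j ∧ HCut s j
  · left
    obtain ⟨j, hj, -, p, hp, s', hs', h1⟩ := first_cut hs.1 hex
    obtain ⟨c', hc', A, hA, h2⟩ := all_cut hs'
    refine ⟨p, Or.inr ⟨j, ?_, hp⟩, c', hc', A, hA, by rw [h1, h2]⟩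
    by_contra hlt
    exact hs.2 j hj (by omega) ⟨p, s', hp.1, pos_SSt hs', h1⟩
  · right
    exact ⟨hs.1, fun j hj hc => hex ⟨j, hj, hc⟩⟩

/-- a bridge at the height r -/
lemma tri_Brd {u r : ℕ} {w : List Bool} (hw : w ∈ Brd u) (hr : r ≤ u) :
    ∃ r1, r1 ≤ r ∧ ∃ a ∈ Brd r1, ∃ i ∈ Jp (r - r1), ∃ M ∈ BU, w = a ++ (i ++ M) := by
  have hp0 : Pos ([] : List Bool) := by
    intro i h1 h2
    simp only [List.length_nil] at h2
    omega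
  obtain ⟨r1, hr1, a, ha, s, hs, h⟩ := last_cut (Brd_SSt hw) r
  refine ⟨r1, hr1, a, ha, ?_⟩
  obtain ⟨v, hv, -, h1⟩ := nested ha hw (pos_SSt hs.1) hp0 (by omega) (by rw [List.append_nil, h])
  rw [List.append_nil] at h1
  subst h1
  rcases eq_or_ne s [] with rfl | hne
  · have e : u - r1 = 0 := Brd_height hv nil_mem_Brd
    exact ⟨[], Or.inl ⟨by omega, rfl⟩, [], ⟨0, nil_mem_Brd⟩, by rw [h]; simp⟩
  · have h2 : u - r1 ≠ 0 := by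
      intro h0
      rw [h0, Brd_zero] at hv
      exact hne hv
    obtain ⟨j, hj, -, p, hp, s2, hs2, h3⟩ := first_cut hs.1 ⟨u - r1, by omega, s, [], hv, hp0, by simp⟩
    have h4 : j ≤ u - r1 := by
      have h5 : p ++ s2 ∈ SSt (u - r1) := by
        rw [← h3]
        exact Brd_SSt hv
      exact Brd_height_le hp.1 h5
    obtain ⟨v2, hv2, -, h6⟩ := nested (Brd_append ha hp.1) hw (pos_SSt hs2) hp0 (by omega)
      (by rw [List.append_nil, h, h3, List.append_assoc])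
    rw [List.append_nil] at h6
    refine ⟨p, Or.inr ⟨j, ?_, hp⟩, s2, ⟨_, by rw [h6]; exact hv2⟩, by rw [h, h3]⟩
    by_contra hlt
    exact hs.2 j hj (by omega) ⟨p, s2, hp.1, pos_SSt hs2, h3⟩

/-- words i ++ M -/
def FJ (k : ℕ) : Set (List Bool) := {e | ∃ i ∈ Jp k, ∃ M ∈ BU, e = i ++ M}

/-- words i ++ c ++ A -/
def EJ (k d : ℕ) : Set (List Bool) := {e | ∃ i ∈ Jp k, ∃ c ∈ BU, ∃ A ∈ NA d, e = i ++ (c ++ A)}

lemma gs_FJ (k n : ℕ) : gs (FJ k) n ≤ cv (gs (Jp k)) (gs BU) n := gs_le_cv (fun _ h => h) n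

lemma gs_EJ (k d n : ℕ) : gs (EJ k d) n ≤ cv (gs (Jp k)) (cv (gs BU) (gs (NA d))) n := by
  refine (gs_le_cv (B := Jp k) (C := {e | ∃ c ∈ BU, ∃ A ∈ NA d, e = c ++ A}) ?_ n).trans
    (cv_mono (fun _ => le_rfl) (fun m => gs_le_cv (fun _ h => h) m) n)
  rintro t ⟨i, hi, c, hc, A, hA, rfl⟩
  exact ⟨i, hi, c ++ A, ⟨c, hc, A, hA, rfl⟩, rfl⟩

/-- the case of a cut above the bridge -/
def QA (d : ℕ) (x : Σ _ : ℕ, ℕ) (s t : List Bool) : Prop :=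
  s ∈ Brd x.1 ∧ ∃ c ∈ Brd x.2, ∃ e ∈ EJ (x.1 - x.2) d, Dj s c ∧ t = c ++ e

/-- the case of a bridge that reaches beyond the last cut -/
def QB (d : ℕ) (x : Σ _ : ℕ, ℕ) (s t : List Bool) : Prop :=
  ∃ c ∈ Brd x.1, ∃ A ∈ NA d, (Dj s c ∧ ∃ a ∈ Brd x.2, ∃ e ∈ FJ (x.1 - x.2), s = a ++ e) ∧ t = c ++ A

/-- the index set -/
def Ix (d : ℕ) : Finset (Σ _ : ℕ, ℕ) := (range (d + 1)).sigma fun u => range (u + 1)

lemma mem_Ix {d u r : ℕ} (h1 : u ≤ d) (h2 : r ≤ u) : (⟨u, r⟩ : Σ _ : ℕ, ℕ) ∈ Ix d := by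
  unfold Ix
  rw [Finset.mem_sigma, Finset.mem_range, Finset.mem_range]
  exact ⟨by simp only; omega, by simp only; omega⟩

/-- bridges of height at most d -/
def BD (d : ℕ) : Set (List Bool) := {s | ∃ u ∈ range (d + 1), s ∈ Brd u}

lemma split_QAB {d : ℕ} {s t : List Bool} (hs : s ∈ BD d) (ht : t ∈ SSt d) (hD : Dj s t) :
    (∃ x ∈ Ix d, QA d x s t) ∨ ∃ x ∈ Ix d, QB d x s t := by
  obtain ⟨u, hu, hs⟩ := hs
  rw [Finset.mem_range] at hu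
  obtain ⟨r, hr, c, hc, e, h, hcase⟩ := tri ht u
  have hDc : Dj s c := by
    rw [h] at hD
    exact HangA.Dj_pref_right hD
  rcases hcase with h1 | h1
  · left
    exact ⟨⟨u, r⟩, mem_Ix (by omega) hr, hs, c, hc, e, h1, hDc, h⟩
  · right
    obtain ⟨r1, hr1, a, ha, i, hi, M, hM, h2⟩ := tri_Brd hs hr
    exact ⟨⟨r, r1⟩, mem_Ix (by omega) hr1, c, hc, e, h1, ⟨hDc, a, ha, i ++ M, ⟨i, hi, M, hM, rfl⟩, h2⟩, h⟩

lemma gs2_QA (d : ℕ) (x : Σ _ : ℕ, ℕ) (n : ℕ) : gs2 (BD d) (SSt d) (QA d x) n ≤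
    cv (cv (gs2 (Brd x.2) (Brd x.1) Dj) (gs (Jp (x.1 - x.2)))) (cv (gs BU) (gs (NA d))) n := by
  have h1 : gs2 (BD d) (SSt d) (QA d x) n ≤ gs2 (Brd x.1) (SSt d) (QA d x) n :=
    gs2_mono (fun s _ t ht hR => ⟨hR.1, ht, hR⟩) n
  have h2 : gs2 (Brd x.1) (SSt d) (QA d x) n ≤ cv (gs2 (Brd x.1) (Brd x.2) Dj) (gs (EJ (x.1 - x.2) d)) n :=
    gs2_right_split (fun s _ t _ hR => by
      obtain ⟨_, c, hc, e, he, hD, h⟩ := hR
      exact ⟨c, hc, e, he, hD, h⟩) n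
  refine (h1.trans h2).trans ?_
  rw [cv_assoc]
  exact cv_mono (fun m => le_of_eq (gs2_Brd_mirror _ _ m)) (fun m => gs_EJ _ _ m) n

lemma gs2_QB (d : ℕ) (x : Σ _ : ℕ, ℕ) (n : ℕ) : gs2 (BD d) (SSt d) (QB d x) n ≤
    cv (cv (gs2 (Brd x.2) (Brd x.1) Dj) (gs (Jp (x.1 - x.2)))) (cv (gs BU) (gs (NA d))) n := by
  have h1 : gs2 (BD d) (SSt d) (QB d x) n ≤ cv (gs2 (BD d) (Brd x.1)
      (fun s c => Dj s c ∧ ∃ a ∈ Brd x.2, ∃ e ∈ FJ (x.1 - x.2), s = a ++ e)) (gs (NA d)) n :=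
    gs2_right_split (fun s _ t _ hR => by
      obtain ⟨c, hc, A, hA, hD, h⟩ := hR
      exact ⟨c, hc, A, hA, hD, h⟩) n
  have h2 : ∀ m, gs2 (BD d) (Brd x.1) (fun s c => Dj s c ∧ ∃ a ∈ Brd x.2, ∃ e ∈ FJ (x.1 - x.2), s = a ++ e) m ≤
      cv (gs2 (Brd x.2) (Brd x.1) Dj) (gs (FJ (x.1 - x.2))) m := fun m =>
    gs2_left_split (fun s _ c _ hR => by
      obtain ⟨hD, a, ha, e, he, h⟩ := hR
      refine ⟨a, ha, e, he, ?_, h⟩
      rw [h] at hD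
      exact HangA.Dj_pref_left hD) m
  refine h1.trans ((cv_mono h2 (fun _ => le_rfl) n).trans ?_)
  rw [cv_assoc, cv_assoc]
  refine cv_mono (fun _ => le_rfl) (fun m => ?_) n
  rw [← cv_assoc]
  exact cv_mono (fun k => gs_FJ _ k) (fun _ => le_rfl) m

lemma sum_Ix (d : ℕ) (n : ℕ) : ∑ x ∈ Ix d, cv (cv (gs2 (Brd x.2) (Brd x.1) Dj) (gs (Jp (x.1 - x.2))))
    (cv (gs BU) (gs (NA d))) n = cv (GZ d) (cv (gs BU) (gs (NA d))) n := by
  rw [← cv_sum_left]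
  congr 1
  funext k
  unfold Ix GZ
  rw [Finset.sum_sigma]

/-- **the pair lemma** -/
theorem PZ_le (d n : ℕ) : PZ d n ≤ 2 * cv (GZ d) (cv (gs BU) (gs (NA d))) n := by
  have h1 : PZ d n ≤ gs2 (BD d) (SSt d) Dj n :=
    sum_gs2_left (range (d + 1)) (fun i _ j _ s hi hj => Brd_height hi hj) n
  have h2 : gs2 (BD d) (SSt d) Dj n ≤ ∑ b : Bool, gs2 (BD d) (SSt d)
      (fun s t => if b then ∃ x ∈ Ix d, QA d x s t else ∃ x ∈ Ix d, QB d x s t) n :=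
    gs2_le_sum Finset.univ _ (fun s hs t ht hD => by
      rcases split_QAB hs ht hD with h | h
      · exact ⟨true, Finset.mem_univ _, by simpa using h⟩
      · exact ⟨false, Finset.mem_univ _, by simpa using h⟩) n
  rw [Fintype.sum_bool] at h2
  simp only [if_true, Bool.false_eq_true, if_false] at h2
  have h3 : gs2 (BD d) (SSt d) (fun s t => ∃ x ∈ Ix d, QA d x s t) n ≤ cv (GZ d) (cv (gs BU) (gs (NA d))) n := by
    rw [← sum_Ix]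
    exact (gs2_le_sum (Ix d) (QA d) (fun s _ t _ h => h) n).trans (Finset.sum_le_sum fun x _ => gs2_QA d x n)
  have h4 : gs2 (BD d) (SSt d) (fun s t => ∃ x ∈ Ix d, QB d x s t) n ≤ cv (GZ d) (cv (gs BU) (gs (NA d))) n := by
    rw [← sum_Ix]
    exact (gs2_le_sum (Ix d) (QB d) (fun s _ t _ h => h) n).trans (Finset.sum_le_sum fun x _ => gs2_QB d x n)
  calc PZ d n ≤ _ := h1.trans h2
    _ ≤ cv (GZ d) (cv (gs BU) (gs (NA d))) n + cv (GZ d) (cv (gs BU) (gs (NA d))) n := add_le_add h3 h4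
    _ = _ := by ring

end PU

end HexObs
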