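import Pool.Agent.PU72.BB
import Pool.Agent.PU72.Pair
import Pool.Agent.PU72.Cut
import Pool.Agent.BAR.Pointw
import Pool.Agent.BAR.SizeMain

/-!
PU72: the number of self-avoiding walks with exactly n steps, upper bound, assembly (helper72).
-/

set_option autoImplicit false

namespace HexObs

namespace PU

open Finset BAR TS SDN T2

open scoped ENNReal

/-- words of a window of m rows, cut at a top level: the sum over dyadic extents -/
noncomputable def CS (m N : ℕ) : ℝ≥0∞ :=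
  ∑ j ∈ range (Nat.log 2 m + 1), ((2 : ℝ≥0∞) ^ j)⁻¹ *
    ∑ k ∈ range 12, cv (PZ (2 ^ (j + 2))) (cv (JZ (2 ^ j)) (PZ (2 ^ (j + 2)))) (N + 3 - k)

/-- the words with an extent of m rows and N letters (module Cut) -/
def CutP : Prop :=
  ∃ C : ℝ, ∀ m N : ℕ, 3 ≤ N → gs {t | Saw Set.univ oo up t ∧ BAR.Ext m t} N ≤ ENNReal.ofReal C * CS m N

theorem cutP : CutP := cut

/-- the mass of the two half plane words and of the jump -/
noncomputable def MS (j : ℕ) : ℝ≥0∞ :=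
  (∑' n, JZ (2 ^ j) n) * ((∑' n, GZ (2 ^ (j + 2)) n) * gf (NA (2 ^ (j + 2)))) ^ 2

/-- the sum of the masses (module Mass) -/
def MassP : Prop :=
  ∀ ε : ℝ, 0 < ε → ∃ C : ℝ, ∀ m : ℕ, 1 ≤ m →
    ∑ j ∈ range (Nat.log 2 m + 1), ((2 : ℝ≥0∞) ^ j)⁻¹ * MS j ≤ ENNReal.ofReal (C * (m : ℝ) ^ (7 / 24 + ε))

/-- the two bridges that split off are free -/
lemma trip_le {d D n : ℕ} {S : ℝ≥0∞} (h : ∀ k, k ≤ n → cv (gs BU) (gs BU) k ≤ S) :
    cv (PZ d) (cv (JZ D) (PZ d)) n ≤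
      4 * ((∑' k, JZ D k) * ((∑' k, GZ d k) * gf (NA d)) ^ 2 * S) := by
  have h1 : ∀ k, PZ d k ≤ 2 * cv (gs BU) (cv (GZ d) (gs (NA d))) k := by
    intro k
    rw [cv_left_comm]
    exact PZ_le d k
  have h2 : cv (PZ d) (cv (JZ D) (PZ d)) n ≤
      4 * cv (cv (gs BU) (cv (GZ d) (gs (NA d)))) (cv (JZ D) (cv (gs BU) (cv (GZ d) (gs (NA d))))) n := by
    refine (cv_mono h1 (fun k => cv_mono (fun _ => le_rfl) h1 k) n).trans (le_of_eq ?_)
    have e : (fun k => cv (JZ D) (fun l => 2 * cv (gs BU) (cv (GZ d) (gs (NA d))) l) k) =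
        fun k => 2 * cv (JZ D) (cv (gs BU) (cv (GZ d) (gs (NA d)))) k := by
      funext k
      exact cv_smul_right 2 _ _ k
    rw [e, cv_smul_left, cv_smul_right, ← mul_assoc]
    norm_num
  refine h2.trans (mul_le_mul' le_rfl ?_)
  have e : cv (cv (gs BU) (cv (GZ d) (gs (NA d)))) (cv (JZ D) (cv (gs BU) (cv (GZ d) (gs (NA d))))) =
      cv (cv (cv (GZ d) (gs (NA d))) (cv (JZ D) (cv (GZ d) (gs (NA d))))) (cv (gs BU) (gs BU)) := by
    rw [cv_left_comm (JZ D) (gs BU), cv_assoc, cv_left_comm _ (gs BU), ← cv_assoc, cv_comm]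
  rw [e]
  refine (cv_le_sup h).trans (le_of_eq ?_)
  rw [tsum_cv, tsum_cv, tsum_cv, tsum_cv, tsum_gs]
  ring

/-- at most n letters: extent of at most 4 n ^ (1 / β) rows -/
theorem gs_ext {τ1 : ℝ} (hτ1 : 0 < τ1) (hL : LongWalks τ1) {β : ℝ} (hβ : 0 < β) (hβ1 : β < 1 + τ1) :
    ∃ n0 : ℕ, ∀ n : ℕ, n0 ≤ n → ∀ m : ℕ, 4 * (n : ℝ) ^ (1 / β) ≤ m →
      gs {t | Saw Set.univ oo up t} n ≤ gs {t | Saw Set.univ oo up t ∧ BAR.Ext m t} n + 1 := by
  obtain ⟨c, L0, hc, hL0⟩ : ExpUp β :=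
    exp_up hτ1 (fun _ _ hτ hττ hε hε1 => pow_up hτ1 hL hτ hττ hε hε1) hβ1
  obtain ⟨n1, hn1⟩ := exists_nat_ge ((2 : ℝ) ^ (β * L0))
  refine ⟨n1 + 1, fun n hn m hm => ?_⟩
  have hnR : (1 : ℝ) ≤ n := by exact_mod_cast (by omega : 1 ≤ n)
  have hn0 : (0 : ℝ) < n := by linarith
  have hl2 : 0 < Real.log 2 := Real.log_pos (by norm_num)
  obtain ⟨x, hx⟩ : ∃ x, x = Real.log n / Real.log 2 := ⟨_, rfl⟩
  have hxn : (2 : ℝ) ^ x = n := by
    rw [hx, Real.rpow_def_of_pos (by norm_num), mul_div_cancel₀ _ hl2.ne', Real.exp_log hn0]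
  have hx0 : 0 ≤ x := by rw [hx]; exact div_nonneg (Real.log_nonneg hnR) hl2.le
  have hxL : β * L0 ≤ x := by
    have h1 : (2 : ℝ) ^ (β * L0) ≤ (2 : ℝ) ^ x := by
      rw [hxn]
      refine hn1.trans ?_
      exact_mod_cast (by omega : n1 ≤ n)
    exact (Real.rpow_le_rpow_left_iff (by norm_num)).1 h1
  obtain ⟨L, hL⟩ : ∃ L : ℕ, L = ⌈x / β⌉₊ := ⟨_, rfl⟩
  have hLa : x / β ≤ L := by rw [hL]; exact Nat.le_ceil _
  have hLb : (L : ℝ) < x / β + 1 := by rw [hL]; exact Nat.ceil_lt_add_one (by positivity)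
  have hLL : L0 ≤ L := by
    have h1 : (L0 : ℝ) ≤ x / β := by
      rw [le_div_iff₀ hβ]
      linarith
    have : (L0 : ℝ) ≤ L := by linarith
    exact_mod_cast this
  have hnL : (n : ℝ) ≤ (2 : ℝ) ^ (β * L) := by
    rw [← hxn]
    apply Real.rpow_le_rpow_of_exponent_le (by norm_num)
    rw [div_le_iff₀ hβ] at hLa
    linarith
  have h2L : (2 : ℝ) * 2 ^ L ≤ m := by
    refine le_trans ?_ hm
    have h1 : ((2 : ℝ) ^ L) ≤ 2 * (n : ℝ) ^ (1 / β) := by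
      rw [← hxn, ← Real.rpow_mul (by norm_num), ← Real.rpow_natCast]
      calc (2 : ℝ) ^ (L : ℝ) ≤ (2 : ℝ) ^ (x * (1 / β) + 1) := by
            apply Real.rpow_le_rpow_of_exponent_le (by norm_num)
            rw [mul_one_div]
            exact hLb.le
        _ = 2 * (2 : ℝ) ^ (x * (1 / β)) := by
            rw [Real.rpow_add_one (by norm_num)]
            ring
    linarith
  have h2L' : 2 * 2 ^ L ≤ (m : ℤ) := by exact_mod_cast h2L
  have hsub : {t | t ∈ {t | Saw Set.univ oo up t} ∧ t.length = n} ⊆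
      {t | t ∈ {t | Saw Set.univ oo up t ∧ BAR.Ext m t} ∧ t.length = n} ∪
      {t | t ∈ SA ∧ T2.Ext L t ∧ (t.length : ℝ) ≤ (2 : ℝ) ^ (β * L)} := by
    rintro t ⟨h1, h2⟩
    by_cases h3 : T2.Ext L t
    · right
      refine ⟨h1, h3, le_trans ?_ hnL⟩
      rw [h2]
    · left
      refine ⟨⟨h1, -(2 ^ L), fun i _ hi => ?_⟩, h2⟩
      have h4 : |row false (vx oo up t i)| < 2 ^ L := by
        by_contra hcon
        exact h3 ⟨i, hi, false, not_lt.1 hcon⟩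
      have e3 : lev t i = SDN.lvl false (vx oo up t i) := by
        rw [lvl_false_eq]
        unfold lev
        simp only [ip, up]
        ring
      unfold row at h4
      rw [← e3, abs_lt] at h4
      constructor <;> omega
  have h1 : gf {t | t ∈ SA ∧ T2.Ext L t ∧ (t.length : ℝ) ≤ (2 : ℝ) ^ (β * L)} ≤ 1 := by
    refine (hL0 L hLL).trans ?_
    rw [← ENNReal.ofReal_one]
    apply ENNReal.ofReal_le_ofReal
    apply Real.exp_le_one_iff.2
    have : (0 : ℝ) < (2 : ℝ) ^ (c * L) := by positivity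
    linarith
  unfold gs
  exact (gf_mono hsub).trans ((gf_union_le _ _).trans (add_le_add le_rfl h1))

/-- the cut words from the masses -/
lemma CS_le {m N : ℕ} {S : ℝ≥0∞} (h : ∀ k, k ≤ N + 3 → cv (gs BU) (gs BU) k ≤ S) :
    CS m N ≤ 48 * ((∑ j ∈ range (Nat.log 2 m + 1), ((2 : ℝ≥0∞) ^ j)⁻¹ * MS j) * S) := by
  unfold CS
  rw [Finset.sum_mul, Finset.mul_sum]
  refine Finset.sum_le_sum fun j _ => ?_
  have h1 : ∑ k ∈ range 12, cv (PZ (2 ^ (j + 2))) (cv (JZ (2 ^ j)) (PZ (2 ^ (j + 2)))) (N + 3 - k) ≤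
      ∑ _k ∈ range 12, 4 * (MS j * S) := by
    refine Finset.sum_le_sum fun k _ => ?_
    exact trip_le fun l hl => h l (by omega)
  rw [Finset.sum_const, Finset.card_range, nsmul_eq_mul] at h1
  calc ((2 : ℝ≥0∞) ^ j)⁻¹ * ∑ k ∈ range 12, cv (PZ (2 ^ (j + 2))) (cv (JZ (2 ^ j)) (PZ (2 ^ (j + 2)))) (N + 3 - k) ≤
        ((2 : ℝ≥0∞) ^ j)⁻¹ * (((12 : ℕ) : ℝ≥0∞) * (4 * (MS j * S))) := mul_le_mul' le_rfl h1
    _ = 48 * (((2 : ℝ≥0∞) ^ j)⁻¹ * MS j * S) := by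
        push_cast
        ring

/-- **every number of steps** -/
theorem pointwise_up (hM : MassP) (hH : NUX.Hi BrL.ub (9 / 16 - 1))
    (hU : NUX.Hi (NUX.UU BrL.ub) (9 / 16)) (hL : LongWalks (1 / 3)) {ε : ℝ} (hε : 0 < ε) :
    ∃ C : ℝ, 0 < C ∧ ∀ n : ℕ, 1 ≤ n → (aB n : ℝ) ≤ C * (n : ℝ) ^ (11 / 32 + ε) * muB ^ n := by
  obtain ⟨η, hη⟩ : ∃ η : ℝ, η = min (ε / 4) (1 / 4) := ⟨_, rfl⟩
  have hη0 : 0 < η := by rw [hη]; exact lt_min (by positivity) (by norm_num)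
  have hη1 : η ≤ 1 / 4 := by rw [hη]; exact min_le_right _ _
  have hη2 : η ≤ ε / 4 := by rw [hη]; exact min_le_left _ _
  obtain ⟨β, hβ⟩ : ∃ β : ℝ, β = (1 + 1 / 3) / (1 + η) := ⟨_, rfl⟩
  have hβ0 : 0 < β := by rw [hβ]; positivity
  have hβ1 : β < 1 + 1 / 3 := by
    rw [hβ, div_lt_iff₀ (by positivity)]
    nlinarith
  have hβi : 1 / β = 3 / 4 * (1 + η) := by
    rw [hβ]
    field_simp
    norm_num
  obtain ⟨C0, hC0⟩ := cutP
  obtain ⟨C1, hC1⟩ := hM η hη0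
  obtain ⟨C2, hC2, h2⟩ := bb_sup hH hU hη0
  obtain ⟨n1, hn1⟩ := gs_ext (by norm_num) hL hβ0 hβ1
  obtain ⟨n0, hn0'⟩ : ∃ n0 : ℕ, n0 = n1 + 3 := ⟨_, rfl⟩
  -- the exponents
  have hexp : (7 / 24 + η) * (1 / β) + (1 / 8 + η) ≤ 11 / 32 + ε := by
    rw [hβi]
    nlinarith
  obtain ⟨D0, hD0⟩ : ∃ D0 : ℝ, D0 = |C0| := ⟨_, rfl⟩
  obtain ⟨D1, hD1⟩ : ∃ D1 : ℝ, D1 = |C1| * 5 ^ (7 / 24 + η) := ⟨_, rfl⟩
  obtain ⟨D2, hD2⟩ : ∃ D2 : ℝ, D2 = C2 * 4 ^ (1 / 8 + η) := ⟨_, rfl⟩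
  have hD0' : 0 ≤ D0 := by rw [hD0]; exact abs_nonneg _
  have hD1' : 0 ≤ D1 := by rw [hD1]; positivity
  have hD2' : 0 ≤ D2 := by rw [hD2]; positivity
  obtain ⟨E, hE⟩ : ∃ E : ℝ, E = D0 * (48 * (D1 * D2)) + 1 := ⟨_, rfl⟩
  have hE0 : 0 < E := by rw [hE]; positivity
  refine ⟨3 / 2 * E + cum n0, by have := cum_ge_one n0; positivity, fun n hn => ?_⟩
  have hnR : (1 : ℝ) ≤ n := by exact_mod_cast hn
  have hnp : (0 : ℝ) < n := by linarith
  have hmu := muB_pos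
  have hpw : (1 : ℝ) ≤ (n : ℝ) ^ (11 / 32 + ε) := Real.one_le_rpow hnR (by linarith)
  have hcum := cum_ge_one n0
  rw [← div_le_iff₀ (by positivity)]
  rcases Nat.lt_or_ge n n0 with hlt | hge
  · -- small n
    have h3 : (aB n : ℝ) / muB ^ n ≤ cum n0 := by
      unfold cum
      exact Finset.single_le_sum (f := fun k => (aB k : ℝ) / muB ^ k) (fun k _ => by positivity)
        (Finset.mem_range.2 (by omega))
    refine h3.trans ?_
    calc cum n0 = cum n0 * 1 := (mul_one _).symm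
      _ ≤ (3 / 2 * E + cum n0) * (n : ℝ) ^ (11 / 32 + ε) :=
          mul_le_mul (by linarith) hpw (by norm_num) (by positivity)
  · obtain ⟨m, hm⟩ : ∃ m : ℕ, m = ⌈4 * (n : ℝ) ^ (1 / β)⌉₊ := ⟨_, rfl⟩
    have hx1 : (1 : ℝ) ≤ (n : ℝ) ^ (1 / β) := Real.one_le_rpow hnR (by positivity)
    have hm1 : 4 * (n : ℝ) ^ (1 / β) ≤ m := by rw [hm]; exact Nat.le_ceil _
    have hm2 : (m : ℝ) < 4 * (n : ℝ) ^ (1 / β) + 1 := by rw [hm]; exact Nat.ceil_lt_add_one (by positivity)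
    have hm3 : 1 ≤ m := by
      have : (1 : ℝ) ≤ m := by linarith
      exact_mod_cast this
    have h3 := hn1 n (by omega) m hm1
    have hS : ∀ k, k ≤ n + 3 → cv (gs BU) (gs BU) k ≤ ENNReal.ofReal (D2 * (n : ℝ) ^ (1 / 8 + η)) := by
      intro k hk
      refine (h2 (n + 3) (by omega) k hk).trans (ENNReal.ofReal_le_ofReal ?_)
      have h4 : ((n + 3 : ℕ) : ℝ) ≤ 4 * n := by
        push_cast
        linarith
      have h5 : ((n + 3 : ℕ) : ℝ) ^ (1 / 8 + η) ≤ (4 * (n : ℝ)) ^ (1 / 8 + η) :=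
        Real.rpow_le_rpow (by positivity) h4 (by positivity)
      rw [Real.mul_rpow (by norm_num) hnp.le] at h5
      rw [hD2, mul_assoc]
      exact mul_le_mul_of_nonneg_left h5 hC2.le
    have hMm : ∑ j ∈ range (Nat.log 2 m + 1), ((2 : ℝ≥0∞) ^ j)⁻¹ * MS j ≤
        ENNReal.ofReal (D1 * (n : ℝ) ^ ((7 / 24 + η) * (1 / β))) := by
      refine (hC1 m hm3).trans (ENNReal.ofReal_le_ofReal ?_)
      have h4 : (m : ℝ) ^ (7 / 24 + η) ≤ (5 * (n : ℝ) ^ (1 / β)) ^ (7 / 24 + η) :=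
        Real.rpow_le_rpow (by positivity) (by linarith) (by positivity)
      rw [Real.mul_rpow (by norm_num) (by positivity), ← Real.rpow_mul hnp.le,
        mul_comm (1 / β) (7 / 24 + η)] at h4
      rw [hD1, mul_assoc]
      exact mul_le_mul (le_abs_self C1) h4 (by positivity) (abs_nonneg _)
    have h6 := CS_le (m := m) hS
    have h7 : CS m n ≤ ENNReal.ofReal (48 * (D1 * D2) * (n : ℝ) ^ (11 / 32 + ε)) := by
      refine h6.trans ?_
      calc 48 * ((∑ j ∈ range (Nat.log 2 m + 1), ((2 : ℝ≥0∞) ^ j)⁻¹ * MS j) *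
              ENNReal.ofReal (D2 * (n : ℝ) ^ (1 / 8 + η))) ≤
            ENNReal.ofReal 48 * (ENNReal.ofReal (D1 * (n : ℝ) ^ ((7 / 24 + η) * (1 / β))) *
              ENNReal.ofReal (D2 * (n : ℝ) ^ (1 / 8 + η))) := by
            refine mul_le_mul' (le_of_eq ?_) (mul_le_mul' hMm le_rfl)
            norm_num
        _ = ENNReal.ofReal (48 * ((D1 * (n : ℝ) ^ ((7 / 24 + η) * (1 / β))) *
              (D2 * (n : ℝ) ^ (1 / 8 + η)))) := by
            rw [← ENNReal.ofReal_mul (by positivity), ← ENNReal.ofReal_mul (by norm_num)]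
        _ ≤ _ := by
            apply ENNReal.ofReal_le_ofReal
            have e1 : (n : ℝ) ^ ((7 / 24 + η) * (1 / β)) * (n : ℝ) ^ (1 / 8 + η) ≤ (n : ℝ) ^ (11 / 32 + ε) := by
              rw [← Real.rpow_add hnp]
              exact Real.rpow_le_rpow_of_exponent_le hnR hexp
            calc 48 * ((D1 * (n : ℝ) ^ ((7 / 24 + η) * (1 / β))) * (D2 * (n : ℝ) ^ (1 / 8 + η))) =
                  48 * (D1 * D2) * ((n : ℝ) ^ ((7 / 24 + η) * (1 / β)) * (n : ℝ) ^ (1 / 8 + η)) := by ring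
              _ ≤ _ := mul_le_mul_of_nonneg_left e1 (by positivity)
    have h8 : gs {t | Saw Set.univ oo up t} n ≤ ENNReal.ofReal (E * (n : ℝ) ^ (11 / 32 + ε)) := by
      have h9 := hC0 m n (by omega)
      refine h3.trans ?_
      calc gs {t | Saw Set.univ oo up t ∧ BAR.Ext m t} n + 1 ≤
            ENNReal.ofReal D0 * ENNReal.ofReal (48 * (D1 * D2) * (n : ℝ) ^ (11 / 32 + ε)) +
              ENNReal.ofReal 1 := by
            refine add_le_add (h9.trans (mul_le_mul' ?_ h7)) ?_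
            · rw [hD0]
              exact ENNReal.ofReal_le_ofReal (le_abs_self _)
            · rw [ENNReal.ofReal_one]
        _ = ENNReal.ofReal (D0 * (48 * (D1 * D2) * (n : ℝ) ^ (11 / 32 + ε)) + 1) := by
            rw [← ENNReal.ofReal_mul hD0', ← ENNReal.ofReal_add (by positivity) (by norm_num)]
        _ ≤ _ := by
            apply ENNReal.ofReal_le_ofReal
            rw [hE]
            nlinarith
    -- back to the numbers
    have h9 : gs {t | Saw Set.univ oo up t} n = ENNReal.ofReal (cS n * xc ^ n) := by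
      rw [← PHWDict.gf_SawN]
      unfold gs
      congr 1
      ext t
      exact ⟨fun h => ⟨h.2, h.1⟩, fun h => ⟨h.2, h.1⟩⟩
    rw [h9] at h8
    have h10 := (ENNReal.ofReal_le_ofReal_iff (by positivity)).1 h8
    have h11 := (term_bounds n).2
    refine h11.trans ?_
    calc 3 / 2 * ((cS n : ℝ) * xc ^ n) ≤ 3 / 2 * (E * (n : ℝ) ^ (11 / 32 + ε)) := by
          apply mul_le_mul_of_nonneg_left h10 (by norm_num)
      _ = (3 / 2 * E) * (n : ℝ) ^ (11 / 32 + ε) := by ring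
      _ ≤ (3 / 2 * E + cum n0) * (n : ℝ) ^ (11 / 32 + ε) := by
          apply mul_le_mul_of_nonneg_right (by linarith) (by positivity)

end PU

end HexObs
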